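import Pool.Agent.PalT.Defs

/-!
# The Buchstab inequality and the total error of the upper bounds
-/

namespace Pool.Agent.Sv

open Finset

/-- Buchstab inequality on the grid. -/
lemma buchstab {w Y a1 a0 : ℕ} (hY : 1 ≤ Y) (h01 : a1 ≤ a0) (hw : w < Y ^ a1)
    (I : Finset ℕ) (a : ℕ → ℕ) :
    ((Sf (PP w (Y ^ a1)) I a 1).card : ℝ) ≤ ((Sf (PP w (Y ^ a0)) I a 1).card : ℝ) +
      ∑ i ∈ Ico a1 a0, ∑ p ∈ PB Y i, ((Sf (PP w (Y ^ i)) I a p).card : ℝ) := by
  classical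
  have hmono : ∀ {m n : ℕ}, m ≤ n → Y ^ m ≤ Y ^ n := fun h => Nat.pow_le_pow_right hY h
  have hsub : Sf (PP w (Y ^ a1)) I a 1 ⊆ Sf (PP w (Y ^ a0)) I a 1 ∪
      (Ico a1 a0).biUnion (fun i => (PB Y i).biUnion (fun p => Sf (PP w (Y ^ i)) I a p)) := by
    intro k hk
    rw [Sf, mem_filter] at hk
    obtain ⟨hkI, -, hk1⟩ := hk
    rw [mem_union]
    by_cases h0 : dv (PP w (Y ^ a0)) (a k) = ∅
    · left
      rw [Sf, mem_filter]
      exact ⟨hkI, one_dvd _, h0⟩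
    · right
      have hne : (dv (PP w (Y ^ a0)) (a k)).Nonempty := nonempty_iff_ne_empty.mpr h0
      obtain ⟨p, hp, hpmin⟩ := (dv (PP w (Y ^ a0)) (a k)).exists_min_image id hne
      simp only [id] at hpmin
      have hp1 := hp
      rw [dv, mem_filter, mem_PP] at hp1
      obtain ⟨⟨hwp, hpa, hpp⟩, hpd⟩ := hp1
      have hp2 : Y ^ a1 ≤ p := by
        by_contra hcon
        push Not at hcon
        have : p ∈ dv (PP w (Y ^ a1)) (a k) := by
          rw [dv, mem_filter, mem_PP]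
          exact ⟨⟨hwp, hcon, hpp⟩, hpd⟩
        rw [hk1] at this
        simp at this
      have hex : ∃ j, p < Y ^ j := ⟨a0, hpa⟩
      obtain ⟨j, hj, hjmin⟩ : ∃ j, p < Y ^ j ∧ ∀ i < j, ¬ p < Y ^ i :=
        ⟨Nat.find hex, Nat.find_spec hex, fun i hi => Nat.find_min hex hi⟩
      have hj1 : a1 < j := by
        by_contra hcon
        push Not at hcon
        have := hmono hcon
        omega
      have hj0 : j ≤ a0 := by
        by_contra hcon
        push Not at hcon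
        exact hjmin a0 hcon hpa
      obtain ⟨i, rfl⟩ : ∃ i, j = i + 1 := ⟨j - 1, by omega⟩
      have hi : Y ^ i ≤ p := by
        have := hjmin i (by omega)
        omega
      rw [mem_biUnion]
      refine ⟨i, mem_Ico.mpr ⟨by omega, by omega⟩, ?_⟩
      rw [mem_biUnion]
      refine ⟨p, ?_, ?_⟩
      · rw [PB, mem_filter, mem_Ico]
        exact ⟨⟨hi, hj⟩, hpp⟩
      · rw [Sf, mem_filter]
        refine ⟨hkI, hpd, ?_⟩
        rw [eq_empty_iff_forall_notMem]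
        intro q hq
        rw [dv, mem_filter, mem_PP] at hq
        obtain ⟨⟨hwq, hqi, hqp⟩, hqd⟩ := hq
        have hq0 : q ∈ dv (PP w (Y ^ a0)) (a k) := by
          rw [dv, mem_filter, mem_PP]
          exact ⟨⟨hwq, by omega, hqp⟩, hqd⟩
        have := hpmin q hq0
        omega
  have h1 := card_le_card hsub
  have h2 := (h1.trans (card_union_le _ _))
  have h3 : ((Ico a1 a0).biUnion
      (fun i => (PB Y i).biUnion (fun p => Sf (PP w (Y ^ i)) I a p))).card ≤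
      ∑ i ∈ Ico a1 a0, ∑ p ∈ PB Y i, (Sf (PP w (Y ^ i)) I a p).card :=
    card_biUnion_le.trans (Finset.sum_le_sum fun i _ => card_biUnion_le)
  have h4 := h2.trans (Nat.add_le_add_left h3 _)
  have h5 : ((Sf (PP w (Y ^ a1)) I a 1).card : ℝ) ≤ (((Sf (PP w (Y ^ a0)) I a 1).card +
      ∑ i ∈ Ico a1 a0, ∑ p ∈ PB Y i, (Sf (PP w (Y ^ i)) I a p).card : ℕ) : ℝ) := by
    exact_mod_cast h4
  push_cast at h5
  exact h5

/-- Error terms of the upper bound sieve, for all primes in the blocks. -/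
lemma sum_err_blocks {w Y E s t : ℕ} (hY : 2 ≤ Y) (hs : 1 ≤ s) (hw : w < Y ^ s) (j e : ℕ → ℕ)
    (hj : ∀ i ∈ Ico s t, j i ≤ i) (he : ∀ i ∈ Ico s t, i + 1 + 2 * e i ≤ E)
    (r : ℕ → ℝ) (hr : ∀ q, 0 ≤ r q) :
    ∑ i ∈ Ico s t, ∑ p ∈ PB Y i,
      ∑ W ∈ (PP w (Y ^ j i)).powerset.filter (fun W => pr W < (Y ^ e i) ^ 2),
        (4 : ℝ) ^ W.card * r (p * pr W) ≤ Etot w (Y ^ E) r := by
  classical
  have hY1 : 1 ≤ Y := by omega
  have hmono : ∀ {m n : ℕ}, m ≤ n → Y ^ m ≤ Y ^ n := fun h => Nat.pow_le_pow_right hY1 h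
  rw [Finset.sum_sigma']
  rw [Finset.sum_sigma']
  set X := ((Ico s t).sigma (fun i => PB Y i)).sigma
      (fun x => (PP w (Y ^ j x.1)).powerset.filter (fun W => pr W < (Y ^ e x.1) ^ 2)) with hX
  have hmem : ∀ x ∈ X,
      Y ^ x.1.1 ≤ x.1.2 ∧ x.1.2 < Y ^ (x.1.1 + 1) ∧ w < x.1.2 ∧ x.1.2.Prime ∧
      x.2 ⊆ PP w (Y ^ j x.1.1) ∧ (∀ q ∈ x.2, q < x.1.2) ∧ x.1.2 ∉ x.2 ∧
      x.1.2 * pr x.2 < Y ^ E ∧
      (x.1.2 * pr x.2).primeFactors = insert x.1.2 x.2 := by
    intro x hx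
    rw [hX, mem_sigma, mem_sigma, PB, mem_filter, mem_filter, mem_powerset, mem_Ico, mem_Ico] at hx
    obtain ⟨⟨⟨h0, h0'⟩, ⟨h1, h2⟩, h3⟩, h4, h5⟩ := hx
    have hxi : x.1.1 ∈ Ico s t := mem_Ico.mpr ⟨h0, h0'⟩
    have h7 : ∀ q ∈ x.2, q < x.1.2 := by
      intro q hq
      have h8 := (mem_PP.mp (h4 hq)).2.1
      have h9 := hmono (hj _ hxi)
      omega
    have h6 : x.1.2 ∉ x.2 := fun h => by
      have := h7 _ h
      omega
    have hw' : w < x.1.2 := by
      have := hmono h0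
      omega
    refine ⟨h1, h2, hw', h3, h4, h7, h6, ?_, ?_⟩
    · have hp0 : 0 < Y ^ (x.1.1 + 1) := by positivity
      calc x.1.2 * pr x.2 < Y ^ (x.1.1 + 1) * (Y ^ e x.1.1) ^ 2 :=
            Nat.mul_lt_mul'' h2 h5
        _ = Y ^ (x.1.1 + 1 + 2 * e x.1.1) := by rw [← pow_mul, ← pow_add]; ring_nf
        _ ≤ Y ^ E := hmono (he _ hxi)
    · rw [← pr_insert h6]
      refine Nat.primeFactors_prod fun p hp => ?_
      rcases mem_insert.mp hp with h | h
      · rw [h]; exact h3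
      · exact (mem_PP.mp (h4 h)).2.2
  have hinj : Set.InjOn (fun x : (Σ _ : (Σ _ : ℕ, ℕ), Finset ℕ) => x.1.2 * pr x.2) X := by
    rintro ⟨⟨i, p⟩, S⟩ hx ⟨⟨k, q⟩, T⟩ hy hxy
    have hx' := hmem _ (mem_coe.mp hx)
    have hy' := hmem _ (mem_coe.mp hy)
    simp only at hx' hy' hxy
    obtain ⟨a1, a2, a2', a3, a4, a5, a6, a7, a8⟩ := hx'
    obtain ⟨b1, b2, b2', b3, b4, b5, b6, b7, b8⟩ := hy'
    have h1 : insert p S = insert q T := by rw [← a8, ← b8, hxy]
    have hpq : p = q := by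
      have h2 : p ∈ insert q T := by rw [← h1]; exact mem_insert_self _ _
      have h3 : q ∈ insert p S := by rw [h1]; exact mem_insert_self _ _
      rcases mem_insert.mp h2 with h | h
      · exact h
      · rcases mem_insert.mp h3 with h' | h'
        · exact h'.symm
        · have := a5 _ h'
          have := b5 _ h
          omega
    subst hpq
    have hST : S = T := by
      rw [← erase_insert a6, ← erase_insert b6, h1]
    subst hST
    have hik : i = k := by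
      rcases lt_trichotomy i k with h | h | h
      · have := hmono (show i + 1 ≤ k by omega)
        omega
      · exact h
      · have := hmono (show k + 1 ≤ i by omega)
        omega
    subst hik
    rfl
  have h1 : ∑ x ∈ X, (4 : ℝ) ^ x.2.card * r (x.1.2 * pr x.2) ≤
      ∑ x ∈ X, ((x.1.2 * pr x.2).divisors.card : ℝ) ^ 3 * r (x.1.2 * pr x.2) := by
    refine Finset.sum_le_sum fun x hx => ?_
    obtain ⟨a1, a2, a2', a3, a4, a5, a6, a7, a8⟩ := hmem x hx
    refine mul_le_mul_of_nonneg_right ?_ (hr _)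
    have h2 : (8 : ℝ) ^ x.2.card ≤ ((x.1.2 * pr x.2).divisors.card : ℝ) ^ 3 :=
      eight_pow_le (fun p hp => (mem_PP.mp (a4 hp)).2.2)
        (Nat.mul_pos a3.pos (pr_pos fun p hp => PP_pos (a4 hp))) (Dvd.intro_left _ rfl)
    exact (pow_le_pow_left₀ (by norm_num) (by norm_num) _).trans h2
  refine h1.trans ?_
  rw [← sum_image (f := fun q : ℕ => (q.divisors.card : ℝ) ^ 3 * r q) hinj]
  unfold Etot
  refine sum_le_sum_of_subset_of_nonneg ?_ fun q _ _ => by
    have := hr q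
    positivity
  intro q hq
  obtain ⟨x, hx, rfl⟩ := mem_image.mp hq
  obtain ⟨a1, a2, a2', a3, a4, a5, a6, a7, a8⟩ := hmem x hx
  unfold MM
  rw [mem_filter, mem_Ico, a8]
  refine ⟨⟨Nat.mul_pos a3.pos (pr_pos fun p hp => PP_pos (a4 hp)), a7⟩, fun p hp => ?_⟩
  rcases mem_insert.mp hp with h | h
  · omega
  · exact (mem_PP.mp (a4 h)).1

end Pool.Agent.Sv
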