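import Pool.Agent.PalT.SieveT

/-!
# The two certificates of the weighted sieve

`E / X = 960 / 2623` (three prime factors) and `E / X = 960 / 3565` (four prime factors), with
the grid `Y^98` (first sieving point), `Y^175` (second sieving point), `Y^945` (top of the
weighted range).
-/

namespace Pool.Agent.Sv

set_option maxRecDepth 1000000 in
theorem chk3 : chkT 960 98 175 945 3 2623 = true := by decide +kernel

set_option maxRecDepth 1000000 in
theorem chk4 : chkT 960 98 175 945 4 3565 = true := by decide +kernel

end Pool.Agent.Sv
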