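import Pool.Agent.PalT.Tab

/-!
# The numerical quantities of the sieve
-/

namespace Pool.Agent.Sv

/-- The loss over the primes in `[Y, Y^(n+1))`. -/
def lossS (L : List ℕ) : ℕ → ℕ
  | 0 => 0
  | i + 1 => lossS L i + ((2 * (i + 1) + 1) * (L.take (i + 2)).sum / (2 * (i + 1) * (i + 2)) + 1)

/-- Upper bound for the loss term. -/
def DpS (a e : ℕ) : ℕ := ((UL a e).take (a + 1)).sum / (e - 1) + 1 + lossS (UL a e) (a - 1)

/-- Upper bound for the main sum. -/
def GpS (a e : ℕ) : ℕ := a * (3 * SC - 2 * 693147180300) + 1 + ((UL a e).take (e - 2 * a)).sum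

/-- Upper bound for the terms of the Buchstab identity. -/
def buchS (E a : ℕ) : ℕ → ℕ
  | 0 => 0
  | k + 1 => buchS E a k + ((2 * (a + k) + 1) * SC * SC /
      (2 * (a + k) * (a + k + 1) * Jm (a + k) ((E - (a + k) - 1) / 2)) + 1)

/-- Upper bound for the weighted terms. -/
def wtS (E a v : ℕ) : ℕ → ℕ
  | 0 => 0
  | k + 1 => wtS E a v k + (((2 * (a + k) + 1) * v - 2 * (a + k) * (a + k + 1)) * SC * SC /
      (2 * (a + k) * (a + k + 1) * v * Jm a ((E - (a + k) - 1) / 2)) + 1)

/-- All the denominators are positive. -/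
def posB (E a : ℕ) : ℕ → Bool
  | 0 => true
  | k + 1 => posB E a k && Nat.ble 1 (Jm (a + k) ((E - (a + k) - 1) / 2))

/-- All the denominators are positive. -/
def posW (E a : ℕ) : ℕ → Bool
  | 0 => true
  | k + 1 => posW E a k && Nat.ble 1 (Jm a ((E - (a + k) - 1) / 2))

end Pool.Agent.Sv
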