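import Pool.Agent.PalT.Chk
import Pool.Agent.PalSieve.WSieve

/-!
# Definitions for the sieve with a general level
-/

namespace Pool.Agent.Sv

open Finset

/-- The loss term of the lower bound, for a general support of the weights. -/
noncomputable def Dx (w z ξ : ℕ) : ℝ :=
  ∑ p ∈ PP w z, 1 / (p : ℝ) *
    ∑ V ∈ (DD (PP w z) ξ).filter (fun V => ξ ≤ p * pr V), (1 : ℝ) / pr V

/-- The primes in `[Y^i, Y^(i+1))`. -/
def PB (Y i : ℕ) : Finset ℕ := (Ico (Y ^ i) (Y ^ (i + 1))).filter Nat.Prime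

/-- The weight of a prime. -/
noncomputable def omv (v Y p : ℕ) : ℝ := 1 - Real.log p / (v * Real.log Y)

/-- The members with at most `r` prime factors, all of them large. -/
def GoodT (r a0 Y : ℕ) (I : Finset ℕ) (a : ℕ → ℕ) : Finset ℕ :=
  I.filter (fun i => ArithmeticFunction.cardFactors (a i) ≤ r ∧
    ∀ p ∈ (a i).primeFactors, Y ^ a0 ≤ p)

end Pool.Agent.Sv
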