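import Pool.Agent.PalT.Defs

/-!
# The main sums on the grid
-/

namespace Pool.Agent.Sv

open Finset Filter Topology

/-- Upper bound. -/
lemma GG_up {w : ℕ} {c C : ℝ} (hc0 : 0 < c) (hc1 : c ≤ 1) (hC : 0 < C)
    (h : ∀ N : ℕ, 1 ≤ N → |L0 w N - c * Real.log N| ≤ C) {a e : ℕ} (ha : 1 ≤ a)
    (hae : 2 * a ≤ e) : ∀ᶠ Y : ℕ in atTop,
    GG (PP w (Y ^ a)) (Y ^ e) ≤ (GpS a e : ℝ) / SC * (c * Real.log Y) := by
  have hS := SC_pos
  have hall : ∀ᶠ Y : ℕ in atTop, ∀ j ∈ Ico (2 * a) e,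
      GG (PP w (Y ^ a)) (Y ^ (j + 1)) - GG (PP w (Y ^ a)) (Y ^ j) ≤
        ((uT a j : ℝ) / SC) * (c * Real.log Y) := by
    rw [Filter.eventually_all_finset]
    intro j _
    exact uT_spec hc0 hc1 hC h ha j
  have hgrid := LL_grid hc0 hc1 hC h (a := a) (e := 2 * a) ha (by omega) le_rfl
  filter_upwards [hall, hgrid, ev_log_ge ((11 * C + 60) * SC / c), ev_log_ge 0] with Y h1 h2 h3 h0
  set lY := Real.log Y with hlY
  -- telescoping
  have htel : ∀ n, 2 * a ≤ n → GG (PP w (Y ^ a)) (Y ^ n) = GG (PP w (Y ^ a)) (Y ^ (2 * a)) +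
      ∑ j ∈ Ico (2 * a) n, (GG (PP w (Y ^ a)) (Y ^ (j + 1)) - GG (PP w (Y ^ a)) (Y ^ j)) := by
    intro n hn
    induction n, hn using Nat.le_induction with
    | base => simp
    | succ n hn ih =>
      rw [Finset.sum_Ico_succ_top hn, ← add_assoc, ← ih]
      ring
  rw [htel e hae]
  have h4 : ∑ j ∈ Ico (2 * a) e, (GG (PP w (Y ^ a)) (Y ^ (j + 1)) - GG (PP w (Y ^ a)) (Y ^ j)) ≤
      ((∑ j ∈ Ico (2 * a) e, uT a j : ℕ) : ℝ) / SC * (c * lY) := by
    refine (Finset.sum_le_sum h1).trans (le_of_eq ?_)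
    rw [← Finset.sum_mul, ← Finset.sum_div]
    push_cast
    rfl
  have h5 : GG (PP w (Y ^ a)) (Y ^ (2 * a)) ≤ LL w (Y ^ a) (Y ^ (2 * a)) := GG_le _ _ _
  have h6 := (abs_le.mp h2).2
  have har : (0 : ℝ) < a := by
    have : 0 < a := by omega
    exact_mod_cast this
  have e1 : JJ (a : ℝ) ((2 * a : ℕ) : ℝ) = a * (3 - 2 * Real.log 2) := by
    unfold JJ
    push_cast
    rw [Real.log_mul (by norm_num) har.ne']
    ring
  rw [e1] at h6
  have e2 : (GpS a e : ℝ) = a * (3 * 1000000000000 - 2 * 693147180300) + 1 +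
      ((∑ j ∈ Ico (2 * a) e, uT a j : ℕ) : ℝ) := by
    unfold GpS
    rw [sum_take_UL a e (e - 2 * a) (by omega)]
    have e3 : e - (e - 2 * a) = 2 * a := by omega
    rw [e3]
    have e4 : 3 * SC - 2 * 693147180300 = 1613705639400 := by unfold SC; norm_num
    rw [e4]
    push_cast
    ring
  rw [e2]
  have hSC : (SC : ℝ) = 1000000000000 := by unfold SC; norm_num
  have h7 : (11 * C + 60) ≤ 1 / SC * (c * lY) := by
    rw [div_le_iff₀ hc0] at h3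
    rw [div_mul_eq_mul_div, one_mul, le_div_iff₀ hS]
    linarith
  have h8 : a * (3 - 2 * Real.log 2) * (c * lY) ≤
      (a * (3 * 1000000000000 - 2 * 693147180300)) / SC * (c * lY) := by
    refine mul_le_mul_of_nonneg_right ?_ (by positivity)
    rw [le_div_iff₀ hS, hSC]
    have := Real.log_two_gt_d9
    have h9 : (3 - 2 * Real.log 2) * 1000000000000 ≤ 3 * 1000000000000 - 2 * 693147180300 := by
      linarith
    calc (a : ℝ) * (3 - 2 * Real.log 2) * 1000000000000 =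
        a * ((3 - 2 * Real.log 2) * 1000000000000) := by ring
      _ ≤ _ := mul_le_mul_of_nonneg_left h9 har.le
  have e5 : ((a : ℝ) * (3 * 1000000000000 - 2 * 693147180300) + 1 +
      ((∑ j ∈ Ico (2 * a) e, uT a j : ℕ) : ℝ)) / SC * (c * lY) =
      (a * (3 * 1000000000000 - 2 * 693147180300)) / SC * (c * lY) + 1 / SC * (c * lY) +
      ((∑ j ∈ Ico (2 * a) e, uT a j : ℕ) : ℝ) / SC * (c * lY) := by ring
  rw [e5]
  linarith

/-- Lower bound. -/
lemma GG_low {w : ℕ} {c C : ℝ} (hw : 1 ≤ w) (hc0 : 0 < c) (hc1 : c ≤ 1) (hC : 0 < C)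
    (h : ∀ N : ℕ, 1 ≤ N → |L0 w N - c * Real.log N| ≤ C) {a : ℕ} (ha : 2 ≤ a) (e : ℕ) :
    ∀ᶠ Y : ℕ in atTop,
    (Jm a e : ℝ) / SC * (c * Real.log Y) ≤ (1 + 1 / (w : ℝ)) * GG (PP w (Y ^ a)) (Y ^ e) := by
  filter_upwards [Jm_spec hc0 hc1 hC h ha e] with Y hY
  exact hY.trans (LL_le_GG hw)

end Pool.Agent.Sv
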