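import Pool.Agent.PalT.Win

/-!
# Bounds on a grid of powers, for all large `Y`
-/

namespace Pool.Agent.Sv

open Finset Filter Topology

lemma ev_log_ge (K : ℝ) : ∀ᶠ Y : ℕ in atTop, K ≤ Real.log Y := tendsto_logY.eventually_ge_atTop K

/-- Upper bound for the window `[Y^j, Y^(j+1))`. -/
def UpW (w : ℕ) (c : ℝ) (a j : ℕ) (u : ℝ) : Prop :=
  ∀ᶠ Y : ℕ in atTop, GG (PP w (Y ^ a)) (Y ^ (j + 1)) - GG (PP w (Y ^ a)) (Y ^ j) ≤
    u * (c * Real.log Y)

/-- Upper bound for the sum over all integers up to `Y^e`. -/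
def UpL (w : ℕ) (c : ℝ) (a e : ℕ) (u : ℝ) : Prop :=
  ∀ᶠ Y : ℕ in atTop, LL w (Y ^ a) (Y ^ e) ≤ u * (c * Real.log Y)

/-- Lower bound for the sum over all integers up to `Y^e`. -/
def LoL (w : ℕ) (c : ℝ) (a e : ℕ) (l : ℝ) : Prop :=
  ∀ᶠ Y : ℕ in atTop, l * (c * Real.log Y) ≤ LL w (Y ^ a) (Y ^ e)

lemma LL_mono {w z : ℕ} {N N' : ℕ} (h : N' ≤ N) : LL w z N' ≤ LL w z N := by
  unfold LL
  exact sum_le_sum_of_subset_of_nonneg (filter_subset_filter _ (Ico_subset_Ico le_rfl h))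
    fun _ _ _ => by positivity

lemma LL_diff {w z : ℕ} {K L : ℕ} (hK : 1 ≤ K) (hKL : K ≤ L) : LL w z L - LL w z K =
    ∑ n ∈ (Ico K L).filter (fun n => ∀ p ∈ n.primeFactors, w < p ∧ p < z), (1 : ℝ) / n := by
  unfold LL
  rw [sub_eq_iff_eq_add, add_comm, ← sum_union]
  · refine Finset.sum_congr ?_ fun _ _ => rfl
    rw [← filter_union]
    congr 1
    rw [Ico_union_Ico_eq_Ico hK hKL]
  · rw [disjoint_left]
    intro k h1 h2
    simp only [mem_filter, mem_Ico] at h1 h2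
    omega

lemma L0_diff {w : ℕ} {K L : ℕ} (hK : 1 ≤ K) (hKL : K ≤ L) : L0 w L - L0 w K =
    ∑ n ∈ (Ico K L).filter (fun n => ∀ p ∈ n.primeFactors, w < p), (1 : ℝ) / n := by
  unfold L0
  rw [sub_eq_iff_eq_add, add_comm, ← sum_union]
  · refine Finset.sum_congr ?_ fun _ _ => rfl
    rw [← filter_union]
    congr 1
    rw [Ico_union_Ico_eq_Ico hK hKL]
  · rw [disjoint_left]
    intro k h1 h2
    simp only [mem_filter, mem_Ico] at h1 h2
    omega

/-- Windows of the restricted sum are at most windows of the full sum. -/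
lemma LL_diff_le_L0 {w z : ℕ} {K L : ℕ} (hK : 1 ≤ K) (hKL : K ≤ L) :
    LL w z L - LL w z K ≤ L0 w L - L0 w K := by
  rw [LL_diff hK hKL, L0_diff hK hKL]
  refine sum_le_sum_of_subset_of_nonneg ?_ fun _ _ _ => by positivity
  intro n hn
  rw [mem_filter] at hn ⊢
  exact ⟨hn.1, fun p hp => (hn.2 p hp).1⟩

/-- Windows of the squarefree sum are at most windows of the sum over all integers. -/
lemma GG_diff_le_LL {w z : ℕ} {K L : ℕ} (hK : 1 ≤ K) (hKL : K ≤ L) :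
    GG (PP w z) L - GG (PP w z) K ≤ LL w z L - LL w z K := by
  have h1 : GG (PP w z) L - GG (PP w z) K =
      ∑ T ∈ (DD (PP w z) L).filter (fun T => K ≤ pr T), (1 : ℝ) / pr T := by
    rw [sub_eq_iff_eq_add, add_comm]
    unfold GG
    rw [← Finset.sum_filter_add_sum_filter_not (DD (PP w z) L) (fun T => K ≤ pr T), add_comm]
    congr 1
    refine Finset.sum_congr ?_ fun _ _ => rfl
    ext T
    rw [mem_filter, mem_DD, mem_DD]
    constructor
    · rintro ⟨⟨h1, h2⟩, h3⟩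
      exact ⟨h1, by omega⟩
    · rintro ⟨h1, h2⟩
      exact ⟨⟨h1, by omega⟩, by omega⟩
  rw [h1, LL_diff hK hKL]
  have h2 : ∑ T ∈ (DD (PP w z) L).filter (fun T => K ≤ pr T), (1 : ℝ) / pr T =
      ∑ n ∈ ((DD (PP w z) L).filter (fun T => K ≤ pr T)).image pr, (1 : ℝ) / n := by
    rw [sum_image ((pr_injOn w z L).mono (by
      intro x hx
      rw [mem_coe, mem_filter] at hx
      exact mem_coe.mpr hx.1))]
  rw [h2]
  refine sum_le_sum_of_subset_of_nonneg ?_ fun _ _ _ => by positivity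
  intro n hn
  obtain ⟨T, hT, rfl⟩ := mem_image.mp hn
  rw [mem_filter, mem_DD] at hT
  rw [mem_filter, mem_Ico, primeFactors_pr hT.1.1]
  refine ⟨⟨hT.2, hT.1.2⟩, fun p hp => ?_⟩
  have := mem_PP.mp (hT.1.1 hp)
  exact ⟨this.1, this.2.1⟩

lemma GG_mono {P : Finset ℕ} {K L : ℕ} (h : K ≤ L) : GG P K ≤ GG P L := by
  unfold GG
  refine sum_le_sum_of_subset_of_nonneg ?_ fun _ _ _ => by positivity
  intro T hT
  rw [mem_DD] at hT ⊢
  exact ⟨hT.1, by omega⟩

lemma log_pow_cast (Y e : ℕ) : Real.log ((Y ^ e : ℕ) : ℝ) = e * Real.log Y := by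
  push_cast
  rw [Real.log_pow]

/-- Homogeneity of the main function. -/
lemma JJ_hom {t u v : ℝ} (ht : 0 < t) (hu : 0 < u) (hv : 0 < v) :
    JJ (u * t) (v * t) = JJ u v * t := by
  unfold JJ
  rw [Real.log_mul hv.ne' ht.ne', Real.log_mul hu.ne' ht.ne']
  ring

section base

variable {w : ℕ} {c C : ℝ}

/-- Windows below `z`. -/
lemma upW_low (hc0 : 0 < c) (h : ∀ N : ℕ, 1 ≤ N → |L0 w N - c * Real.log N| ≤ C)
    {a j : ℕ} {u : ℝ} (hu : 1 < u) : UpW w c a j u := by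
  have hε : 0 < u - 1 := by linarith
  filter_upwards [ev_log_ge (2 * C / ((u - 1) * c)), eventually_ge_atTop 1] with Y h1 hY
  have e1 : Y ^ j ≤ Y ^ (j + 1) := Nat.pow_le_pow_right hY (by omega)
  have e0 : 1 ≤ Y ^ j := Nat.one_le_pow _ _ hY
  refine (GG_diff_le_LL e0 e1).trans ((LL_diff_le_L0 e0 e1).trans ?_)
  have h2 := abs_le.mp (h (Y ^ j) e0)
  have h3 := abs_le.mp (h (Y ^ (j + 1)) (e0.trans e1))
  rw [log_pow_cast] at h2 h3
  rw [div_le_iff₀ (by positivity)] at h1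
  push_cast at h3
  nlinarith [h2.1, h2.2, h3.1, h3.2]

/-- The asymptotic formula on the grid, in the range where it is explicit. -/
lemma LL_grid (hc0 : 0 < c) (hc1 : c ≤ 1) (hC : 0 < C)
    (h : ∀ N : ℕ, 1 ≤ N → |L0 w N - c * Real.log N| ≤ C) {a e : ℕ} (ha : 1 ≤ a) (hae : a ≤ e)
    (he : e ≤ 2 * a) : ∀ᶠ Y : ℕ in atTop,
      |LL w (Y ^ a) (Y ^ e) - JJ a e * (c * Real.log Y)| ≤ 11 * C + 60 := by
  filter_upwards [eventually_ge_atTop (max 3 (w + 1))] with Y hY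
  have hY3 : 3 ≤ Y := (le_max_left _ _).trans hY
  have hYw : w + 1 ≤ Y := (le_max_right _ _).trans hY
  have hYa : Y ≤ Y ^ a := Nat.le_self_pow (by omega) Y
  have hlog : 0 < Real.log Y := Real.log_pos (by
    have : 1 < Y := by omega
    exact_mod_cast this)
  have h1 := LL_high hc0 hc1 hC h (z := Y ^ a) (N := Y ^ e) (by omega) (by omega)
    (Nat.pow_le_pow_right (by omega) hae) (by
      rw [← pow_mul]
      exact Nat.pow_le_pow_right (by omega) (by omega))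
  rw [log_pow_cast, log_pow_cast, JJ_hom hlog (by
    have : 0 < a := by omega
    exact_mod_cast this) (by
    have : 0 < e := by omega
    exact_mod_cast this)] at h1
  have e1 : JJ (a : ℝ) e * (c * Real.log Y) = c * (JJ (a : ℝ) e * Real.log Y) := by ring
  rw [e1]
  exact h1

/-- Windows between `z` and `z^2`. -/
lemma upW_mid (hc0 : 0 < c) (hc1 : c ≤ 1) (hC : 0 < C)
    (h : ∀ N : ℕ, 1 ≤ N → |L0 w N - c * Real.log N| ≤ C) {a j : ℕ} {u : ℝ} (ha : 1 ≤ a)
    (haj : a ≤ j) (hj : j + 1 ≤ 2 * a) (hu : JJ a ((j : ℝ) + 1) - JJ a j < u) :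
    UpW w c a j u := by
  have hε : 0 < u - (JJ a ((j : ℝ) + 1) - JJ a j) := by linarith
  set ε := u - (JJ a ((j : ℝ) + 1) - JJ a j) with hεd
  filter_upwards [ev_log_ge (2 * (11 * C + 60) / (ε * c)), eventually_ge_atTop 1,
    LL_grid hc0 hc1 hC h ha haj (by omega), LL_grid hc0 hc1 hC h ha (by omega : a ≤ j + 1) hj]
    with Y h1 hY h2 h3
  have e1 : Y ^ j ≤ Y ^ (j + 1) := Nat.pow_le_pow_right hY (by omega)
  have e0 : 1 ≤ Y ^ j := Nat.one_le_pow _ _ hY
  refine (GG_diff_le_LL e0 e1).trans ?_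
  have h2 := abs_le.mp h2
  have h3 := abs_le.mp h3
  rw [div_le_iff₀ (by positivity)] at h1
  push_cast at h3
  have e2 : u = ε + (JJ a ((j : ℝ) + 1) - JJ a j) := by rw [hεd]; ring
  rw [e2]
  nlinarith [h2.1, h2.2, h3.1, h3.2]

/-- Recursion for the upper bounds of the windows. -/
lemma upW_rec (hc0 : 0 < c) {a e : ℕ} {u : ℝ} (ha : 1 ≤ a) (hae : a ≤ e) (he : 2 ≤ e) (U : ℕ → ℝ)
    (hU : ∀ j ∈ Ico (e - a) e, UpW w c a j (U j))
    (hu : ∑ j ∈ Ico (e - a) e, U j < u * (e - 1)) : UpW w c a e u := by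
  have hall : ∀ᶠ Y : ℕ in atTop, ∀ j ∈ Ico (e - a) e,
      GG (PP w (Y ^ a)) (Y ^ (j + 1)) - GG (PP w (Y ^ a)) (Y ^ j) ≤ U j * (c * Real.log Y) := by
    rw [Filter.eventually_all_finset]
    exact hU
  set A := ∑ j ∈ Ico (e - a) e, U j with hA
  have her : (2 : ℝ) ≤ e := by exact_mod_cast he
  have hε : 0 < u * (e - 1) - A := by linarith
  filter_upwards [hall, ev_log_ge ((9 * A + 9 * u) / (u * (e - 1) - A)), ev_log_ge 10,
    eventually_ge_atTop 2] with Y h1 h2 h3 hY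
  set lY := Real.log Y with hlY
  have hl0 : 0 < lY := by linarith
  set W := GG (PP w (Y ^ a)) (Y ^ (e + 1)) - GG (PP w (Y ^ a)) (Y ^ e) with hW
  set S := GG (PP w (Y ^ a)) (Y ^ e) - GG (PP w (Y ^ a)) (Y ^ (e - a)) with hS
  have hSA : S ≤ A * (c * lY) := by
    have e1 : S = ∑ j ∈ Ico (e - a) e,
        (GG (PP w (Y ^ a)) (Y ^ (j + 1)) - GG (PP w (Y ^ a)) (Y ^ j)) := by
      rw [Finset.sum_Ico_sub (fun j => GG (PP w (Y ^ a)) (Y ^ j)) (by omega)]
    rw [e1, hA, Finset.sum_mul]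
    exact Finset.sum_le_sum h1
  have hwin := GG_window (w := w) (z := Y ^ a) (N := Y ^ (e + 1)) (N' := Y ^ e)
    (M := Y ^ (e - a)) (Nat.one_le_pow _ _ (by omega)) (by
      rw [← pow_add]
      exact Nat.pow_le_pow_right (by omega) (by omega)) (Nat.one_le_pow _ _ (by omega))
    (Nat.pow_le_pow_right (by omega) (by omega))
  have e2 : Real.log (((Y ^ (e + 1) : ℕ) : ℝ) / ((Y ^ e : ℕ) : ℝ)) = lY := by
    have hYr : (0 : ℝ) < Y := by
      have : 0 < Y := by omega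
      exact_mod_cast this
    have : ((Y ^ (e + 1) : ℕ) : ℝ) / ((Y ^ e : ℕ) : ℝ) = Y := by
      push_cast
      rw [pow_succ]
      field_simp
    rw [this]
  have e3 : GG (PP w (Y ^ a)) (Y ^ (e + 1)) - GG (PP w (Y ^ a)) (Y ^ (e - a)) = W + S := by
    rw [hW, hS]; ring
  rw [e2, e3, log_pow_cast, ← hW, ← hlY] at hwin
  have h4 : (9 * A + 9 * u) ≤ lY * (u * (e - 1) - A) := by
    rwa [div_le_iff₀ hε] at h2
  have h5 : 0 < (e - 1) * lY - 9 := by nlinarith
  have h6 : ((e - 1) * lY - 9) * W ≤ (lY + 9) * (A * (c * lY)) := by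
    have : (lY + 9) * S ≤ (lY + 9) * (A * (c * lY)) := mul_le_mul_of_nonneg_left hSA (by linarith)
    nlinarith
  have h7 : (lY + 9) * (A * (c * lY)) ≤ ((e - 1) * lY - 9) * (u * (c * lY)) := by
    have h8 : (lY + 9) * A ≤ ((e - 1) * lY - 9) * u := by nlinarith
    have hcl : 0 ≤ c * lY := by positivity
    nlinarith
  exact le_of_mul_le_mul_left (h6.trans h7) h5

/-- Lower bounds below `z`. -/
lemma loL_low (hc0 : 0 < c) (h : ∀ N : ℕ, 1 ≤ N → |L0 w N - c * Real.log N| ≤ C)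
    {a e : ℕ} {l : ℝ} (hae : e ≤ a) (hl : l < e) : LoL w c a e l := by
  have hε : 0 < (e : ℝ) - l := by linarith
  filter_upwards [ev_log_ge (C / (((e : ℝ) - l) * c)), eventually_ge_atTop 1] with Y h1 hY
  have e0 : 1 ≤ Y ^ e := Nat.one_le_pow _ _ hY
  have h2 := abs_le.mp (LL_low h (z := Y ^ a) (N := Y ^ e) e0 (Nat.pow_le_pow_right hY hae))
  rw [log_pow_cast] at h2
  rw [div_le_iff₀ (by positivity)] at h1
  nlinarith [h2.1, h2.2]

/-- Lower bounds between `z` and `z^2`. -/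
lemma loL_mid (hc0 : 0 < c) (hc1 : c ≤ 1) (hC : 0 < C)
    (h : ∀ N : ℕ, 1 ≤ N → |L0 w N - c * Real.log N| ≤ C) {a e : ℕ} {l : ℝ} (ha : 1 ≤ a)
    (hae : a ≤ e) (he : e ≤ 2 * a) (hl : l < JJ a e) : LoL w c a e l := by
  have hε : 0 < JJ (a : ℝ) e - l := by linarith
  filter_upwards [ev_log_ge ((11 * C + 60) / ((JJ (a : ℝ) e - l) * c)),
    LL_grid hc0 hc1 hC h ha hae he] with Y h1 h2
  have h2 := abs_le.mp h2
  rw [div_le_iff₀ (by positivity)] at h1
  nlinarith [h2.1, h2.2]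

/-- Upper bounds between `z` and `z^2`. -/
lemma upL_mid (hc0 : 0 < c) (hc1 : c ≤ 1) (hC : 0 < C)
    (h : ∀ N : ℕ, 1 ≤ N → |L0 w N - c * Real.log N| ≤ C) {a e : ℕ} {u : ℝ} (ha : 1 ≤ a)
    (hae : a ≤ e) (he : e ≤ 2 * a) (hu : JJ a e < u) : UpL w c a e u := by
  have hε : 0 < u - JJ (a : ℝ) e := by linarith
  filter_upwards [ev_log_ge ((11 * C + 60) / ((u - JJ (a : ℝ) e) * c)),
    LL_grid hc0 hc1 hC h ha hae he] with Y h1 h2
  have h2 := abs_le.mp h2
  rw [div_le_iff₀ (by positivity)] at h1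
  nlinarith [h2.1, h2.2]

/-- Recursion for the lower bounds. -/
lemma loL_rec (hc0 : 0 < c) (hC : 0 < C)
    (h : ∀ N : ℕ, 1 ≤ N → |L0 w N - c * Real.log N| ≤ C)
    {a e : ℕ} {l l' J : ℝ} (ha : 2 ≤ a) (hae : a ≤ e)
    (hl : LoL w c a e l) (hJ : UpL w c a (e + 1 - a) J) (hl' : l' < l + (l - J) / (e + 1)) :
    LoL w c a (e + 1) l' := by
  have her : (0 : ℝ) < (e : ℝ) + 1 := by positivity
  set K0 : ℝ := c * Real.log (2 * ((w : ℝ) + 1)) + 2 * C with hK0
  set δ : ℝ := l + (l - J) / (e + 1) - l' with hδ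
  have hδ0 : 0 < δ := by rw [hδ]; linarith
  have hK00 : 0 < K0 := by
    have : 0 ≤ Real.log (2 * ((w : ℝ) + 1)) := Real.log_nonneg (by
      have : (0 : ℝ) ≤ w := Nat.cast_nonneg _
      linarith)
    positivity
  filter_upwards [hl, hJ, ev_log_ge 10, ev_log_ge ((9 * c * (|l| + |J|) + K0) / ((e + 1) * δ * c)),
    eventually_ge_atTop (max 2 (w + 1))] with Y h1 h2 h3 h4 hY
  have hY2 : 2 ≤ Y := (le_max_left _ _).trans hY
  have hYw : w + 1 ≤ Y := (le_max_right _ _).trans hY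
  set lY := Real.log Y with hlY
  have hl0 : 0 < lY := by linarith
  set N'' := Y ^ e / (w + 1) with hN''
  have hYr : (0 : ℝ) < Y := by
    have : 0 < Y := by omega
    exact_mod_cast this
  have hMN : Y ^ (e + 1 - a) ≤ N'' := by
    rw [hN'', Nat.le_div_iff_mul_le (by omega)]
    calc Y ^ (e + 1 - a) * (w + 1) ≤ Y ^ (e + 1 - a) * Y := Nat.mul_le_mul_left _ hYw
      _ = Y ^ (e + 1 - a + 1) := (pow_succ _ _).symm
      _ ≤ Y ^ e := Nat.pow_le_pow_right (by omega) (by omega)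
  have hN''1 : 1 ≤ N'' := (Nat.one_le_pow _ _ (by omega)).trans hMN
  have hwin := LL_window (w := w) (z := Y ^ a) (N := Y ^ (e + 1)) (N' := Y ^ e) (N'' := N'')
    (M := Y ^ (e + 1 - a)) (by
      rw [← pow_add]
      exact Nat.pow_le_pow_right (by omega) (by omega)) (Nat.div_mul_le_self _ _)
    (Nat.one_le_pow _ _ (by omega)) hMN (Nat.pow_le_pow_right (by omega) (by omega))
  have e2 : Real.log (((Y ^ (e + 1) : ℕ) : ℝ) / ((Y ^ e : ℕ) : ℝ)) = lY := by
    have : ((Y ^ (e + 1) : ℕ) : ℝ) / ((Y ^ e : ℕ) : ℝ) = Y := by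
      push_cast
      rw [pow_succ]
      field_simp
    rw [this]
  rw [e2, log_pow_cast, ← hlY] at hwin
  -- replace `N''` by `Y^e`
  have hN''e : N'' ≤ Y ^ e := Nat.div_le_self _ _
  have h5 : LL w (Y ^ a) (Y ^ e) - LL w (Y ^ a) N'' ≤ K0 := by
    refine (LL_diff_le_L0 hN''1 hN''e).trans ?_
    have t1 := abs_le.mp (h N'' hN''1)
    have t2 := abs_le.mp (h (Y ^ e) (hN''1.trans hN''e))
    have t3 : Real.log ((Y ^ e : ℕ) : ℝ) ≤ Real.log (2 * ((w : ℝ) + 1)) + Real.log N'' := by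
      have hN''r : (0 : ℝ) < N'' := by exact_mod_cast hN''1
      rw [← Real.log_mul (by positivity) hN''r.ne']
      refine Real.log_le_log (by positivity) ?_
      have t4 := Nat.lt_div_mul_add (a := Y ^ e) (b := w + 1) (by omega)
      have t5 : Y ^ e ≤ 2 * (w + 1) * N'' := by
        have : w + 1 ≤ N'' * (w + 1) := Nat.le_mul_of_pos_left _ hN''1
        have e6 : 2 * (w + 1) * N'' = N'' * (w + 1) + N'' * (w + 1) := by ring
        rw [← hN''] at t4
        omega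
      exact_mod_cast t5
    have t6 := mul_le_mul_of_nonneg_left t3 hc0.le
    rw [hK0]
    nlinarith [t1.1, t1.2, t2.1, t2.2]
  set Le := LL w (Y ^ a) (Y ^ e) with hLe
  set LM := LL w (Y ^ a) (Y ^ (e + 1 - a)) with hLM
  set LN := LL w (Y ^ a) (Y ^ (e + 1)) with hLN
  have h6 : (lY - 9) * (Le - K0 - LM) ≤ ((e : ℝ) + 1) * lY * (LN - Le) := by
    have : (lY - 9) * (Le - K0 - LM) ≤ (lY - 9) * (LL w (Y ^ a) N'' - LM) :=
      mul_le_mul_of_nonneg_left (by linarith) (by linarith)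
    push_cast at hwin
    linarith
  -- conclude
  have h7 : 9 * c * (|l| + |J|) + K0 ≤ lY * ((e + 1) * δ * c) := by
    rwa [div_le_iff₀ (by positivity)] at h4
  have hE : 0 < ((e : ℝ) + 1) * lY := by positivity
  have h8 : ((e : ℝ) + 1) * lY * (l' * (c * lY)) ≤ ((e : ℝ) + 1) * lY * LN := by
    have h9 : ((e : ℝ) + 1) * lY * LN ≥ ((e : ℝ) + 1) * lY * Le + (lY - 9) * (Le - K0 - LM) := by
      linarith
    have h10 : ((e : ℝ) + 1) * lY * Le + (lY - 9) * (Le - K0 - LM) ≥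
        ((e : ℝ) + 1) * lY * (l * (c * lY)) + (lY - 9) * (l * (c * lY) - K0 - J * (c * lY)) := by
      have a1 : ((e : ℝ) + 1) * lY * (l * (c * lY)) ≤ ((e : ℝ) + 1) * lY * Le :=
        mul_le_mul_of_nonneg_left h1 hE.le
      have a2 : (lY - 9) * (l * (c * lY) - K0 - J * (c * lY)) ≤ (lY - 9) * (Le - K0 - LM) :=
        mul_le_mul_of_nonneg_left (by linarith) (by linarith)
      linarith
    have h11 : ((e : ℝ) + 1) * lY * (l * (c * lY)) + (lY - 9) * (l * (c * lY) - K0 - J * (c * lY)) ≥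
        ((e : ℝ) + 1) * lY * (l' * (c * lY)) := by
      have b1 : l' = l + (l - J) / (e + 1) - δ := by rw [hδ]; ring
      have b2 : ((e : ℝ) + 1) * lY * (l' * (c * lY)) =
          ((e : ℝ) + 1) * lY * (l * (c * lY)) + lY * ((l - J) * (c * lY)) -
            ((e : ℝ) + 1) * lY * (δ * (c * lY)) := by
        rw [b1]
        field_simp
      rw [b2]
      have b3 : (lY - 9) * (l * (c * lY) - K0 - J * (c * lY)) =
          lY * ((l - J) * (c * lY)) - 9 * ((l - J) * (c * lY)) - (lY - 9) * K0 := by ring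
      rw [b3]
      have b4 : 9 * ((l - J) * (c * lY)) ≤ 9 * c * (|l| + |J|) * lY := by
        have : l - J ≤ |l| + |J| := by
          have := le_abs_self l
          have := neg_abs_le J
          linarith
        have h0 : 0 ≤ c * lY := by positivity
        nlinarith
      have b5 : (lY - 9) * K0 ≤ lY * K0 := by nlinarith
      have b6 : (9 * c * (|l| + |J|) + K0) * lY ≤ lY * ((e + 1) * δ * c) * lY :=
        mul_le_mul_of_nonneg_right h7 hl0.le
      have b7 : ((e : ℝ) + 1) * lY * (δ * (c * lY)) = lY * ((e + 1) * δ * c) * lY := by ring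
      rw [b7]
      have b8 : (9 * c * (|l| + |J|) + K0) * lY = 9 * c * (|l| + |J|) * lY + lY * K0 := by ring
      rw [b8] at b6
      linarith
    linarith
  exact le_of_mul_le_mul_left h8 hE

/-- Monotonicity of the lower bounds. -/
lemma LoL.mono {a e e' : ℕ} {l : ℝ} (h : LoL w c a e l) (he : e ≤ e') : LoL w c a e' l := by
  filter_upwards [h, eventually_ge_atTop 1] with Y h1 hY
  exact h1.trans (LL_mono (Nat.pow_le_pow_right hY he))

end base

end Pool.Agent.Sv
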