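import Pool.Agent.PalT.Defs

/-!
# The loss term on the grid
-/

namespace Pool.Agent.Sv

open Finset Filter Topology

/-- Difference of the main sums. -/
lemma GG_diff {P : Finset ℕ} {K ξ : ℕ} (hK : K ≤ ξ) : GG P ξ - GG P K =
    ∑ T ∈ (DD P ξ).filter (fun T => K ≤ pr T), (1 : ℝ) / pr T := by
  rw [sub_eq_iff_eq_add, add_comm]
  unfold GG
  rw [← Finset.sum_filter_add_sum_filter_not (DD P ξ) (fun T => K ≤ pr T), add_comm]
  congr 1
  refine Finset.sum_congr ?_ fun _ _ => rfl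
  ext T
  rw [mem_filter, mem_DD, mem_DD]
  constructor
  · rintro ⟨⟨h1, h2⟩, h3⟩
    exact ⟨h1, by omega⟩
  · rintro ⟨h1, h2⟩
    exact ⟨⟨h1, by omega⟩, by omega⟩

/-- The last windows together. -/
lemma GG_tail_le {w : ℕ} {c C : ℝ} (hc0 : 0 < c) (hc1 : c ≤ 1) (hC : 0 < C)
    (h : ∀ N : ℕ, 1 ≤ N → |L0 w N - c * Real.log N| ≤ C) {a e k : ℕ} (ha : 1 ≤ a)
    (hk : k ≤ e) : ∀ᶠ Y : ℕ in atTop,
    GG (PP w (Y ^ a)) (Y ^ e) - GG (PP w (Y ^ a)) (Y ^ (e - k)) ≤
      (((UL a e).take k).sum : ℝ) / SC * (c * Real.log Y) := by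
  have hall : ∀ᶠ Y : ℕ in atTop, ∀ j ∈ Ico (e - k) e,
      GG (PP w (Y ^ a)) (Y ^ (j + 1)) - GG (PP w (Y ^ a)) (Y ^ j) ≤
        (uT a j : ℝ) / SC * (c * Real.log Y) := by
    rw [Filter.eventually_all_finset]
    exact fun j _ => uT_spec hc0 hc1 hC h ha j
  filter_upwards [hall] with Y h1
  have e1 : GG (PP w (Y ^ a)) (Y ^ e) - GG (PP w (Y ^ a)) (Y ^ (e - k)) =
      ∑ j ∈ Ico (e - k) e, (GG (PP w (Y ^ a)) (Y ^ (j + 1)) - GG (PP w (Y ^ a)) (Y ^ j)) := by
    rw [Finset.sum_Ico_sub (fun j => GG (PP w (Y ^ a)) (Y ^ j)) (by omega)]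
  rw [e1, sum_take_UL a e k hk]
  push_cast
  rw [Finset.sum_div, Finset.sum_mul]
  exact Finset.sum_le_sum h1

/-- The inner sum of the loss term. -/
lemma inner_le {P : Finset ℕ} {p K ξ : ℕ} (hK : K ≤ ξ) (hp : ∀ V, ξ ≤ p * V → K ≤ V) :
    ∑ V ∈ (DD P ξ).filter (fun V => ξ ≤ p * pr V), (1 : ℝ) / pr V ≤ GG P ξ - GG P K := by
  rw [GG_diff hK]
  refine sum_le_sum_of_subset_of_nonneg ?_ fun _ _ _ => by positivity
  intro V hV
  rw [mem_filter] at hV ⊢
  exact ⟨hV.1, hp _ hV.2⟩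

/-- Primes `p < Y`: window inequality. -/
lemma loss_small {w : ℕ} {c C : ℝ} (hw : 1 ≤ w) (hc0 : 0 < c) (hc1 : c ≤ 1) (hC : 0 < C)
    (h : ∀ N : ℕ, 1 ≤ N → |L0 w N - c * Real.log N| ≤ C) {a e : ℕ} (ha : 2 ≤ a)
    (hae : 2 * a + 2 ≤ e) : ∀ᶠ Y : ℕ in atTop,
    ∑ p ∈ (PP w (Y ^ a)).filter (fun p => p < Y), 1 / (p : ℝ) *
      ∑ V ∈ (DD (PP w (Y ^ a)) (Y ^ e)).filter (fun V => Y ^ e ≤ p * pr V), (1 : ℝ) / pr V ≤
      ((((UL a e).take (a + 1)).sum / (e - 1) + 1 : ℕ) : ℝ) / SC * (c * Real.log Y) := by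
  set S := ((UL a e).take (a + 1)).sum with hS
  set F := S / (e - 1) with hF
  have hSC := SC_pos
  have her : (1 : ℝ) < e := by
    have : 1 < e := by omega
    exact_mod_cast this
  have he1 : ((e - 1 : ℕ) : ℝ) = (e : ℝ) - 1 := by
    rw [Nat.cast_sub (by omega)]; norm_num
  have hgap : (0 : ℝ) < ((F : ℝ) + 1) * (e - 1) - S := by
    have h1 := Nat.lt_div_mul_add (a := S) (b := e - 1) (by omega)
    rw [← hF] at h1
    have h2 : (S : ℝ) < F * ((e - 1 : ℕ) : ℝ) + ((e - 1 : ℕ) : ℝ) := by exact_mod_cast h1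
    rw [he1] at h2
    linarith
  set δ : ℝ := ((F : ℝ) + 1) * (e - 1) - S with hδ
  have hS0 : (0 : ℝ) ≤ S := Nat.cast_nonneg _
  -- `134 + 9 log log Y` is small
  have hll : ∀ᶠ Y : ℕ in atTop, (134 + 9 * Real.log (Real.log Y)) * S ≤ δ * Real.log Y := by
    have h1 : ∀ᶠ x : ℝ in atTop, (134 + 9 * Real.log x) * S ≤ δ * x := by
      have h2 : (fun x : ℝ => 134 + 9 * Real.log x) =o[atTop] (fun x : ℝ => x) := by
        refine Asymptotics.IsLittleO.add ?_ ?_
        · exact Asymptotics.isLittleO_const_id_atTop _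
        · exact Real.isLittleO_log_id_atTop.const_mul_left 9
      have h3 := h2.def (c := δ / (S + 1)) (by positivity)
      filter_upwards [h3, eventually_ge_atTop 1] with x h4 h5
      rw [Real.norm_eq_abs, Real.norm_eq_abs, abs_of_nonneg (by linarith : (0 : ℝ) ≤ x)] at h4
      have h6 : 134 + 9 * Real.log x ≤ δ / (S + 1) * x := (le_abs_self _).trans h4
      have h7 : (134 + 9 * Real.log x) * S ≤ δ / (S + 1) * x * S :=
        mul_le_mul_of_nonneg_right h6 hS0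
      refine h7.trans ?_
      have h8 : δ / (S + 1) * x * S = δ * x * (S / (S + 1)) := by ring
      rw [h8]
      have h9 : (S : ℝ) / (S + 1) ≤ 1 := by
        rw [div_le_one (by positivity)]; linarith
      exact mul_le_of_le_one_right (by positivity) h9
    exact tendsto_logY.eventually h1
  filter_upwards [GG_tail_le (k := a + 1) hc0 hc1 hC h (by omega : 1 ≤ a) (by omega : a + 1 ≤ e),
    hll, ev_log_ge 1, eventually_ge_atTop (max 3 (w + 2))] with Y h1 h2 h3 hY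
  have hY3 : 3 ≤ Y := (le_max_left _ _).trans hY
  have hYw : w + 2 ≤ Y := (le_max_right _ _).trans hY
  set lY := Real.log Y with hlY
  have hl0 : 0 < lY := by linarith
  set M := Y ^ (e - (a + 1)) with hM
  rw [← hS] at h1
  -- pointwise
  have hpt : ∀ p ∈ (PP w (Y ^ a)).filter (fun p => p < Y),
      1 / (p : ℝ) * ∑ V ∈ (DD (PP w (Y ^ a)) (Y ^ e)).filter (fun V => Y ^ e ≤ p * pr V),
        (1 : ℝ) / pr V ≤ (Real.log p / p + 9 * (1 / p)) * (S / SC * c / (e - 1)) := by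
    intro p hp
    rw [mem_filter, mem_PP] at hp
    obtain ⟨⟨hp1, hp2, hp3⟩, hp4⟩ := hp
    have hp0 : 0 < p := hp3.pos
    have hpr : (0 : ℝ) < p := by exact_mod_cast hp0
    have hlp0 : 0 ≤ Real.log p := Real.log_nonneg (by exact_mod_cast hp3.one_lt.le)
    set N' := (Y ^ e - 1) / p + 1 with hN'
    have hYe : 1 ≤ Y ^ e := Nat.one_le_pow _ _ (by omega)
    have hN1 : Y ^ e ≤ N' * p := by
      have h5 := Nat.lt_div_mul_add (a := Y ^ e - 1) hp0
      have h6 : N' * p = (Y ^ e - 1) / p * p + p := by rw [hN']; ring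
      omega
    have hN2 : N' ≤ Y ^ e := by
      have : (Y ^ e - 1) / p ≤ Y ^ e - 1 := Nat.div_le_self _ _
      omega
    have hN3 : Y ^ (e - 1) ≤ N' := by
      by_contra hcon
      push Not at hcon
      have h5 : N' * p < Y ^ (e - 1) * Y := Nat.mul_lt_mul'' hcon hp4
      rw [← pow_succ, Nat.sub_add_cancel (by omega)] at h5
      omega
    have hN'1 : 1 ≤ N' := Nat.le_add_left 1 _
    have hin := inner_le (P := PP w (Y ^ a)) (p := p) (K := N') (ξ := Y ^ e) hN2 (by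
      intro V hV
      by_contra hcon
      push Not at hcon
      have h5 : V ≤ (Y ^ e - 1) / p := by omega
      rw [Nat.le_div_iff_mul_le hp0, mul_comm] at h5
      omega)
    have hwin := GG_window (w := w) (z := Y ^ a) (N := Y ^ e) (N' := N') (M := M)
      (Nat.one_le_pow _ _ (by omega)) (by
        rw [hM, ← pow_add]
        refine le_trans (le_of_eq ?_) hN3
        congr 1
        omega) hN'1 hN2
    set W := GG (PP w (Y ^ a)) (Y ^ e) - GG (PP w (Y ^ a)) N' with hW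
    have hW0 : 0 ≤ W := by rw [hW]; linarith [GG_mono (P := PP w (Y ^ a)) hN2]
    have hN'r : (0 : ℝ) < N' := by exact_mod_cast hN'1
    have hlogN' : ((e : ℝ) - 1) * lY ≤ Real.log N' := by
      have : Real.log ((Y ^ (e - 1) : ℕ) : ℝ) ≤ Real.log N' :=
        Real.log_le_log (by
          have : 0 < Y ^ (e - 1) := Nat.pow_pos (by omega)
          exact_mod_cast this) (by exact_mod_cast hN3)
      rwa [log_pow_cast, he1] at this
    have hratio : Real.log (((Y ^ e : ℕ) : ℝ) / N') ≤ Real.log p := by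
      refine Real.log_le_log (by positivity) ?_
      rw [div_le_iff₀ hN'r, mul_comm]
      exact_mod_cast hN1
    have h5 : ((e : ℝ) - 1) * lY * W ≤ (Real.log p + 9) * (S / SC * (c * lY)) := by
      calc ((e : ℝ) - 1) * lY * W ≤ Real.log N' * W := mul_le_mul_of_nonneg_right hlogN' hW0
        _ ≤ (Real.log (((Y ^ e : ℕ) : ℝ) / N') + 9) *
            (GG (PP w (Y ^ a)) (Y ^ e) - GG (PP w (Y ^ a)) M) := hwin
        _ ≤ (Real.log p + 9) * (GG (PP w (Y ^ a)) (Y ^ e) - GG (PP w (Y ^ a)) M) := by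
            refine mul_le_mul_of_nonneg_right (by linarith) ?_
            have : M ≤ Y ^ e := Nat.pow_le_pow_right (by omega) (by omega)
            linarith [GG_mono (P := PP w (Y ^ a)) this]
        _ ≤ (Real.log p + 9) * (S / SC * (c * lY)) :=
            mul_le_mul_of_nonneg_left h1 (by linarith)
    have h6 : W ≤ (Real.log p + 9) * (S / SC * c / (e - 1)) := by
      have he10 : (0 : ℝ) < (e : ℝ) - 1 := by linarith
      have e2 : (Real.log p + 9) * (S / SC * (c * lY)) =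
          ((e : ℝ) - 1) * lY * ((Real.log p + 9) * (S / SC * c / (e - 1))) := by
        field_simp
      rw [e2] at h5
      exact le_of_mul_le_mul_left h5 (by positivity)
    calc 1 / (p : ℝ) * ∑ V ∈ (DD (PP w (Y ^ a)) (Y ^ e)).filter (fun V => Y ^ e ≤ p * pr V),
          (1 : ℝ) / pr V ≤ 1 / (p : ℝ) * W := mul_le_mul_of_nonneg_left hin (by positivity)
      _ ≤ 1 / (p : ℝ) * ((Real.log p + 9) * (S / SC * c / (e - 1))) :=
          mul_le_mul_of_nonneg_left h6 (by positivity)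
      _ = _ := by ring
  refine (Finset.sum_le_sum hpt).trans ?_
  rw [← Finset.sum_mul, Finset.sum_add_distrib, ← Finset.mul_sum]
  have hsub : (PP w (Y ^ a)).filter (fun p => p < Y) ⊆ (Ico (w + 1) Y).filter Nat.Prime := by
    intro p hp
    rw [mem_filter, mem_PP] at hp
    rw [mem_filter, mem_Ico]
    exact ⟨⟨hp.1.1, hp.2⟩, hp.1.2.2⟩
  have hs1 : ∑ p ∈ (PP w (Y ^ a)).filter (fun p => p < Y), Real.log p / p ≤ lY + 8 := by
    have h5 := (abs_le.mp (abs_sum_log_sub_le (n := w + 1) (m := Y) (by omega) (by omega))).2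
    have h6 : 0 ≤ Real.log ((w + 1 : ℕ) : ℝ) := Real.log_nonneg (by
      have : 1 ≤ w + 1 := by omega
      exact_mod_cast this)
    have h7 : ∑ p ∈ (PP w (Y ^ a)).filter (fun p => p < Y), Real.log p / p ≤
        ∑ p ∈ (Ico (w + 1) Y).filter Nat.Prime, Real.log p / p := by
      refine sum_le_sum_of_subset_of_nonneg hsub fun p hp _ => ?_
      rw [mem_filter] at hp
      have : 0 ≤ Real.log p := Real.log_nonneg (by exact_mod_cast hp.2.one_lt.le)
      positivity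
    linarith
  have hs2 : ∑ p ∈ (PP w (Y ^ a)).filter (fun p => p < Y), (1 : ℝ) / p ≤
      Real.log lY + 14 := by
    refine le_trans (sum_le_sum_of_subset_of_nonneg hsub fun _ _ _ => by positivity) ?_
    exact sum_inv_prime_le (by omega) hY3
  have hlast : (∑ p ∈ (PP w (Y ^ a)).filter (fun p => p < Y), Real.log p / p +
      9 * ∑ p ∈ (PP w (Y ^ a)).filter (fun p => p < Y), (1 : ℝ) / p) * (S / SC * c / (e - 1)) ≤
      (lY + (134 + 9 * Real.log lY)) * (S / SC * c / (e - 1)) := by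
    refine mul_le_mul_of_nonneg_right (by linarith) ?_
    have : (0 : ℝ) < (e : ℝ) - 1 := by linarith
    positivity
  refine hlast.trans ?_
  have he10 : (0 : ℝ) < (e : ℝ) - 1 := by linarith
  have e3 : (lY + (134 + 9 * Real.log lY)) * (S / SC * c / (e - 1)) =
      (lY * S + (134 + 9 * Real.log lY) * S) * (c / (SC * (e - 1))) := by
    field_simp
  rw [e3]
  have e4 : (lY * S + (134 + 9 * Real.log lY) * S) * (c / (SC * (e - 1))) ≤
      (lY * S + δ * lY) * (c / (SC * (e - 1))) :=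
    mul_le_mul_of_nonneg_right (by linarith) (by positivity)
  refine e4.trans (le_of_eq ?_)
  rw [hδ]
  push_cast
  field_simp
  ring

/-- The loss over one block of primes. -/
lemma loss_block {w : ℕ} {c C : ℝ} (hc0 : 0 < c) (hc1 : c ≤ 1) (hC : 0 < C)
    (h : ∀ N : ℕ, 1 ≤ N → |L0 w N - c * Real.log N| ≤ C) {a e i : ℕ} (ha : 2 ≤ a)
    (hae : 2 * a + 2 ≤ e) (hi1 : 1 ≤ i) (hia : i < a) : ∀ᶠ Y : ℕ in atTop,
    ∑ p ∈ PB Y i, 1 / (p : ℝ) *
      ∑ V ∈ (DD (PP w (Y ^ a)) (Y ^ e)).filter (fun V => Y ^ e ≤ p * pr V), (1 : ℝ) / pr V ≤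
      (((2 * i + 1) * ((UL a e).take (i + 1)).sum / (2 * i * (i + 1)) + 1 : ℕ) : ℝ) / SC *
        (c * Real.log Y) := by
  set S := ((UL a e).take (i + 1)).sum with hS
  set F := (2 * i + 1) * S / (2 * i * (i + 1)) with hF
  have hSC := SC_pos
  have hir : (0 : ℝ) < i := by exact_mod_cast hi1
  have hS0 : (0 : ℝ) ≤ S := Nat.cast_nonneg _
  have hgap : (0 : ℝ) < ((F : ℝ) + 1) - (2 * i + 1) / (2 * i * (i + 1)) * S := by
    have h1 := Nat.lt_div_mul_add (a := (2 * i + 1) * S) (b := 2 * i * (i + 1)) (by positivity)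
    rw [← hF] at h1
    have h2 : ((2 : ℝ) * i + 1) * S < F * (2 * i * (i + 1)) + 2 * i * (i + 1) := by
      exact_mod_cast h1
    have h3 : ((2 : ℝ) * i + 1) / (2 * i * (i + 1)) * S < F + 1 := by
      rw [div_mul_eq_mul_div, div_lt_iff₀ (by positivity)]
      linarith
    linarith
  set δ : ℝ := ((F : ℝ) + 1) - (2 * i + 1) / (2 * i * (i + 1)) * S with hδ
  filter_upwards [GG_tail_le (k := i + 1) hc0 hc1 hC h (by omega : 1 ≤ a) (by omega : i + 1 ≤ e),
    ev_log_ge 1, ev_log_ge (9 * S / (i * δ)), eventually_ge_atTop 2] with Y h1 h2 h3 hY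
  set lY := Real.log Y with hlY
  have hl0 : 0 < lY := by linarith
  rw [← hS] at h1
  have hpt : ∀ p ∈ PB Y i,
      1 / (p : ℝ) * ∑ V ∈ (DD (PP w (Y ^ a)) (Y ^ e)).filter (fun V => Y ^ e ≤ p * pr V),
        (1 : ℝ) / pr V ≤ 1 / (p : ℝ) * (S / SC * (c * lY)) := by
    intro p hp
    unfold PB at hp
    rw [mem_filter, mem_Ico] at hp
    obtain ⟨⟨hp1, hp2⟩, hp3⟩ := hp
    have hin := inner_le (P := PP w (Y ^ a)) (p := p) (K := Y ^ (e - (i + 1))) (ξ := Y ^ e)
      (Nat.pow_le_pow_right (by omega) (by omega)) (by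
      intro V hV
      by_contra hcon
      push Not at hcon
      have h5 : p * V < Y ^ (i + 1) * Y ^ (e - (i + 1)) := Nat.mul_lt_mul'' hp2 hcon
      rw [← pow_add, Nat.add_sub_cancel' (by omega)] at h5
      omega)
    exact mul_le_mul_of_nonneg_left (hin.trans h1) (by positivity)
  refine (Finset.sum_le_sum hpt).trans ?_
  rw [← Finset.sum_mul]
  have hYi : 2 ≤ Y ^ i := hY.trans (Nat.le_self_pow (by omega) Y)
  have hs1 := (abs_le.mp (abs_sum_inv_sub_le (n := Y ^ i) (m := Y ^ (i + 1)) hYi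
    (Nat.pow_le_pow_right (by omega) (by omega)))).2
  rw [loglog_pow_sub hY hi1 (by omega), log_pow_cast, ← hlY] at hs1
  have hlog : Real.log (((i + 1 : ℕ) : ℝ) / i) ≤ (2 * i + 1) / (2 * i * (i + 1)) := by
    have h5 := log_succ_le hi1
    push_cast
    rw [Real.log_div (by positivity) hir.ne']
    exact h5
  have hPB : ∑ p ∈ PB Y i, 1 / (p : ℝ) ≤ (2 * i + 1) / (2 * i * (i + 1)) + 9 / (i * lY) := by
    unfold PB
    linarith
  have h4 : (∑ p ∈ PB Y i, 1 / (p : ℝ)) * (S / SC * (c * lY)) ≤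
      ((2 * i + 1) / (2 * i * (i + 1)) + 9 / (i * lY)) * (S / SC * (c * lY)) :=
    mul_le_mul_of_nonneg_right hPB (by positivity)
  refine h4.trans ?_
  have h5 : 9 / (i * lY) * S ≤ δ := by
    rw [div_mul_eq_mul_div, div_le_iff₀ (by positivity)]
    rw [div_le_iff₀ (by positivity)] at h3
    linarith
  have e1 : ((2 * (i : ℝ) + 1) / (2 * i * (i + 1)) + 9 / (i * lY)) * (S / SC * (c * lY)) =
      ((2 * (i : ℝ) + 1) / (2 * i * (i + 1)) * S + 9 / (i * lY) * S) * (c * lY / SC) := by ring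
  rw [e1]
  have h6 : ((2 * (i : ℝ) + 1) / (2 * i * (i + 1)) * S + 9 / (i * lY) * S) * (c * lY / SC) ≤
      ((F : ℝ) + 1) * (c * lY / SC) := by
    refine mul_le_mul_of_nonneg_right ?_ (by positivity)
    rw [hδ] at h5
    linarith
  refine h6.trans (le_of_eq ?_)
  push_cast
  ring

lemma lossS_eq (L : List ℕ) (n : ℕ) : lossS L n =
    ∑ i ∈ range n, ((2 * (i + 1) + 1) * (L.take (i + 2)).sum / (2 * (i + 1) * (i + 2)) + 1) := by
  induction n with
  | zero => simp [lossS]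
  | succ n ih => rw [lossS, ih, Finset.sum_range_succ]

/-- The total loss. -/
theorem Dx_le {w : ℕ} {c C : ℝ} (hw : 1 ≤ w) (hc0 : 0 < c) (hc1 : c ≤ 1) (hC : 0 < C)
    (h : ∀ N : ℕ, 1 ≤ N → |L0 w N - c * Real.log N| ≤ C) {a e : ℕ} (ha : 2 ≤ a)
    (hae : 2 * a + 2 ≤ e) : ∀ᶠ Y : ℕ in atTop,
    Dx w (Y ^ a) (Y ^ e) ≤ (DpS a e : ℝ) / SC * (c * Real.log Y) := by
  have hall : ∀ᶠ Y : ℕ in atTop, ∀ i ∈ range (a - 1), ∑ p ∈ PB Y (i + 1), 1 / (p : ℝ) *
      ∑ V ∈ (DD (PP w (Y ^ a)) (Y ^ e)).filter (fun V => Y ^ e ≤ p * pr V), (1 : ℝ) / pr V ≤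
      (((2 * (i + 1) + 1) * ((UL a e).take (i + 2)).sum / (2 * (i + 1) * (i + 2)) + 1 : ℕ) : ℝ) /
        SC * (c * Real.log Y) := by
    rw [Filter.eventually_all_finset]
    intro i hi
    rw [mem_range] at hi
    exact loss_block hc0 hc1 hC h ha hae (i := i + 1) (by omega) (by omega)
  filter_upwards [hall, loss_small hw hc0 hc1 hC h ha hae, eventually_ge_atTop (max 2 (w + 1))]
    with Y h1 h2 hY
  have hY2 : 2 ≤ Y := (le_max_left _ _).trans hY
  have hYw : w + 1 ≤ Y := (le_max_right _ _).trans hY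
  unfold Dx
  rw [← Finset.sum_filter_add_sum_filter_not (PP w (Y ^ a)) (fun p => p < Y)]
  have e1 : (PP w (Y ^ a)).filter (fun p => ¬ p < Y) =
      (Ico (Y ^ 1) (Y ^ (a - 1 + 1))).filter Nat.Prime := by
    ext p
    rw [mem_filter, mem_PP, mem_filter, mem_Ico, Nat.sub_add_cancel (by omega), pow_one]
    constructor
    · rintro ⟨⟨h3, h4, h5⟩, h6⟩
      exact ⟨⟨by omega, h4⟩, h5⟩
    · rintro ⟨⟨h3, h4⟩, h5⟩
      exact ⟨⟨by omega, h4, h5⟩, by omega⟩
  have h3 := sum_Ico_telescope (fun j => Y ^ (j + 1)) (fun p => 1 / (p : ℝ) *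
      ∑ V ∈ (DD (PP w (Y ^ a)) (Y ^ e)).filter (fun V => Y ^ e ≤ p * pr V), (1 : ℝ) / pr V)
      (a - 1) (fun j _ => Nat.pow_le_pow_right (by omega) (by omega))
  simp only [zero_add] at h3
  rw [e1, ← h3]
  have h4 := Finset.sum_le_sum h1
  have h5 : (DpS a e : ℝ) / SC * (c * Real.log Y) =
      ((((UL a e).take (a + 1)).sum / (e - 1) + 1 : ℕ) : ℝ) / SC * (c * Real.log Y) +
      ∑ i ∈ range (a - 1),
        (((2 * (i + 1) + 1) * ((UL a e).take (i + 2)).sum / (2 * (i + 1) * (i + 2)) + 1 : ℕ) : ℝ) /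
        SC * (c * Real.log Y) := by
    rw [← Finset.sum_mul, ← Finset.sum_div, ← add_mul, ← add_div]
    unfold DpS
    rw [lossS_eq]
    push_cast
    rfl
  rw [h5]
  refine add_le_add h2 ?_
  exact h4

end Pool.Agent.Sv
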