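import Pool.Agent.PalT.Defs

/-!
# The main term of the lower bound sieve, for a general support of the weights
-/

namespace Pool.Agent.Sv

open Finset

/-- The main term of the lower bound, for a general support of the weights. -/
lemma main_lowerX {w z ξ : ℕ} (hw : 1 ≤ w) (hξ : 2 ≤ ξ) :
    1 / GG (PP w z) ξ * (1 - 2 / w - 1 / GG (PP w z) ξ * Dx w z ξ) ≤
      M0 (PP w z) ξ - ∑ p ∈ PP w z, Mp (PP w z) ξ p := by
  have hP : ∀ p ∈ PP w z, 0 < p := fun p hp => PP_pos hp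
  have hG := GG_pos (P := PP w z) hξ
  have h1 := M0_ge hP hξ
  set g : ℝ := 1 / GG (PP w z) ξ with hg
  have hg0 : 0 < g := by positivity
  have h2 : ∑ p ∈ PP w z, Mp (PP w z) ξ p ≤ g * (1 / w) + g ^ 2 * Dx w z ξ := by
    have h3 : ∀ p ∈ PP w z, Mp (PP w z) ξ p ≤ g * (1 / (p : ℝ) ^ 3) +
        g ^ 2 * (1 / (p : ℝ) *
          ∑ V ∈ (DD (PP w z) ξ).filter (fun V => ξ ≤ p * pr V), (1 : ℝ) / pr V) :=
      fun p hp => Mp_le hP hξ hp
    refine (Finset.sum_le_sum h3).trans ?_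
    rw [Finset.sum_add_distrib, ← Finset.mul_sum, ← Finset.mul_sum]
    refine add_le_add (mul_le_mul_of_nonneg_left (sum_PP_cube_le hw z) hg0.le) (le_of_eq ?_)
    rfl
  have h4 := sum_PP_sq_le hw z
  have h5 : g * (1 - 1 / w) ≤ g * (1 - ∑ p ∈ PP w z, 1 / (p : ℝ) ^ 2) :=
    mul_le_mul_of_nonneg_left (by linarith) hg0.le
  have h6 : g * (1 - 2 / w - g * Dx w z ξ) = g * (1 - 1 / w) - (g * (1 / w) + g ^ 2 * Dx w z ξ) := by
    ring
  rw [h6]
  linarith

end Pool.Agent.Sv
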