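import Pool.Agent.PalT.Defs

/-!
# Sums over the primes of a block
-/

namespace Pool.Agent.Sv

open Finset Filter Topology

lemma T_inv_blk {i : ℕ} (hi : 1 ≤ i) :
    Tendsto (fun Y : ℕ => ∑ p ∈ PB Y i, (1 : ℝ) / p)
      atTop (𝓝 (Real.log ((i : ℝ) + 1) - Real.log i)) := by
  have hi0 : (0 : ℝ) < i := by exact_mod_cast hi
  have hlg : Real.log ((i : ℝ) + 1) - Real.log i = Real.log (((i + 1 : ℕ) : ℝ) / i) := by
    rw [Real.log_div (by positivity) hi0.ne']
    push_cast
    rfl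
  rw [hlg]
  have h2 : Tendsto (fun Y : ℕ => ∑ p ∈ PB Y i, (1 : ℝ) / p -
      Real.log (((i + 1 : ℕ) : ℝ) / i)) atTop (𝓝 0) := by
    refine squeeze_zero_norm' (a := fun Y : ℕ => 9 / Real.log Y) ?_
      (tendsto_logY.const_div_atTop 9)
    filter_upwards [eventually_ge_atTop 3] with Y hY
    have hlog : 0 < Real.log Y := Real.log_pos (by
      have : 1 < Y := by omega
      exact_mod_cast this)
    have hYa : Y ≤ Y ^ i := by
      calc Y = Y ^ 1 := (pow_one Y).symm
        _ ≤ Y ^ i := Nat.pow_le_pow_right (by omega) hi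
    have h3 := abs_sum_inv_sub_le (n := Y ^ i) (m := Y ^ (i + 1)) (by omega)
      (Nat.pow_le_pow_right (by omega) (by omega))
    rw [loglog_pow_sub (by omega) hi (by omega)] at h3
    rw [Real.norm_eq_abs]
    refine h3.trans ?_
    have h4 : Real.log Y ≤ Real.log ((Y ^ i : ℕ) : ℝ) :=
      Real.log_le_log (by
        have : 0 < Y := by omega
        exact_mod_cast this) (by exact_mod_cast hYa)
    exact div_le_div_of_nonneg_left (by norm_num) hlog h4
  have h3 := h2.add_const (Real.log (((i + 1 : ℕ) : ℝ) / i))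
  rw [zero_add] at h3
  refine h3.congr fun Y => ?_
  ring

/-- Reciprocals of the primes. -/
lemma sum_inv_blk {i : ℕ} (hi : 1 ≤ i) {S : ℝ}
    (hS : Real.log ((i : ℝ) + 1) - Real.log i < S) :
    ∀ᶠ Y : ℕ in atTop, ∑ p ∈ PB Y i, 1 / (p : ℝ) ≤ S := by
  have h := (T_inv_blk hi).eventually (gt_mem_nhds hS)
  filter_upwards [h] with Y hY
  exact hY.le

/-- Weighted reciprocals of the primes. -/
lemma sum_omv_blk {i v : ℕ} (hi : 1 ≤ i) (hv : 1 ≤ v) {S : ℝ}
    (hS : Real.log ((i : ℝ) + 1) - Real.log i - 1 / v < S) :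
    ∀ᶠ Y : ℕ in atTop, ∑ p ∈ PB Y i, omv v Y p * (1 / (p : ℝ)) ≤ S := by
  have hv0 : (0 : ℝ) < v := by exact_mod_cast hv
  have h1 := T_inv_blk hi
  have h4 : Tendsto (fun Y : ℕ => (∑ p ∈ PB Y i,
      Real.log p / p) / (v * Real.log Y)) atTop (𝓝 (1 / (v : ℝ))) := by
    refine tendsto_div_of_abs_sub_le (C := 8)
      (tendsto_logY.const_mul_atTop hv0) ?_
    filter_upwards [eventually_ge_atTop 1] with Y hY
    have h3 := abs_sum_log_sub_le (n := Y ^ i) (m := Y ^ (i + 1)) (Nat.one_le_pow _ _ hY)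
      (Nat.pow_le_pow_right hY (by omega))
    have h5 : 1 / (v : ℝ) * (v * Real.log Y) =
        Real.log ((Y ^ (i + 1) : ℕ) : ℝ) - Real.log ((Y ^ i : ℕ) : ℝ) := by
      push_cast
      rw [Real.log_pow, Real.log_pow]
      push_cast
      field_simp
      ring
    rw [h5]
    exact h3
  have h5 : Tendsto (fun Y : ℕ => ∑ p ∈ PB Y i, omv v Y p * (1 / (p : ℝ))) atTop
      (𝓝 (Real.log ((i : ℝ) + 1) - Real.log i - 1 / v)) := by
    refine (h1.sub h4).congr fun Y => ?_
    unfold omv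
    rw [Finset.sum_div, ← Finset.sum_sub_distrib]
    refine Finset.sum_congr rfl fun p _ => ?_
    ring
  filter_upwards [h5.eventually (gt_mem_nhds hS)] with Y hY
  exact hY.le

end Pool.Agent.Sv
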