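import Pool.Agent.PalT.GUp

/-!
# The upper bound sieve for the primes of a block
-/

namespace Pool.Agent.Sv

open Finset Filter Topology

lemma blk_upper {w : ℕ} {c C : ℝ} (hw : 1 ≤ w) (hc0 : 0 < c) (hc1 : c ≤ 1) (hC : 0 < C)
    (h : ∀ N : ℕ, 1 ≤ N → |L0 w N - c * Real.log N| ≤ C) {E j i : ℕ} (hj : 2 ≤ j) (hji : j ≤ i)
    (hi : i + 3 ≤ E) (hJ : 1 ≤ Jm j ((E - i - 1) / 2)) :
    ∀ᶠ Y : ℕ in atTop, ∀ (I : Finset ℕ) (a : ℕ → ℕ) (X : ℝ) (r : ℕ → ℝ), 0 ≤ X →
      (∀ q, 0 ≤ r q) → (∀ q ∈ MM w (Y ^ E), |(Nq I a q : ℝ) - X / q| ≤ r q) →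
      ∀ p ∈ PB Y i, ((Sf (PP w (Y ^ j)) I a p).card : ℝ) ≤
        X / (c * Real.log Y) * ((1 + 1 / (w : ℝ)) * ((SC : ℝ) / Jm j ((E - i - 1) / 2))) *
          (1 / (p : ℝ)) +
        ∑ W ∈ (PP w (Y ^ j)).powerset.filter (fun W => pr W < (Y ^ ((E - i - 1) / 2)) ^ 2),
          (4 : ℝ) ^ W.card * r (p * pr W) := by
  have hS := SC_pos
  set e := (E - i - 1) / 2 with he
  have he1 : 1 ≤ e := by omega
  have heE : i + 1 + 2 * e ≤ E := by omega
  have hJr : (0 : ℝ) < Jm j e := by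
    have : 0 < Jm j e := by omega
    exact_mod_cast this
  filter_upwards [GG_low hw hc0 hc1 hC h hj e, eventually_ge_atTop (max 2 (w + 1))]
    with Y hG hY
  intro I a X r hX hr hNq p hp
  have hY2 : 2 ≤ Y := (le_max_left _ _).trans hY
  have hYw : w + 1 ≤ Y := (le_max_right _ _).trans hY
  have hlog : 0 < Real.log Y := Real.log_pos (by
    have : 1 < Y := by omega
    exact_mod_cast this)
  unfold PB at hp
  rw [mem_filter, mem_Ico] at hp
  have hP : ∀ p ∈ PP w (Y ^ j), p.Prime := fun p hp => (mem_PP.mp hp).2.2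
  have hpz : Y ^ j ≤ p := (Nat.pow_le_pow_right (by omega) hji).trans hp.1.1
  have hYj : Y ≤ Y ^ j := Nat.le_self_pow (by omega) Y
  have hξ2 : 2 ≤ Y ^ e := hY2.trans (Nat.le_self_pow (by omega) Y)
  have hcop : ∀ q ∈ PP w (Y ^ j), p.Coprime q := by
    intro q hq
    have hq' := mem_PP.mp hq
    refine (Nat.coprime_primes hp.2 hq'.2.2).mpr ?_
    omega
  have h1 := upper_sieve hP hp.2.pos hcop I a hX hξ2 r hr (by
    intro W hW hlt
    have hpW : p * pr W < Y ^ E := by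
      have e1 : 0 < pr W := pr_pos fun q hq => PP_pos (hW hq)
      calc p * pr W < Y ^ (i + 1) * (Y ^ e) ^ 2 := Nat.mul_lt_mul'' hp.1.2 hlt
        _ = Y ^ (i + 1 + 2 * e) := by rw [← pow_mul, ← pow_add, mul_comm e]
        _ ≤ Y ^ E := Nat.pow_le_pow_right (by omega) heE
    refine hNq _ ?_
    have hpW' : p ∉ W := fun h => by
      have := (mem_PP.mp (hW h)).2.1
      omega
    unfold MM
    rw [mem_filter, mem_Ico]
    refine ⟨⟨Nat.mul_pos hp.2.pos (pr_pos fun q hq => PP_pos (hW hq)), hpW⟩, ?_⟩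
    rw [← pr_insert hpW']
    have e2 : (pr (insert p W)).primeFactors = insert p W := by
      refine Nat.primeFactors_prod fun q hq => ?_
      rcases mem_insert.mp hq with h | h
      · rw [h]; exact hp.2
      · exact (mem_PP.mp (hW h)).2.2
    rw [e2]
    intro q hq
    rcases mem_insert.mp hq with h | h
    · omega
    · exact (mem_PP.mp (hW h)).1)
  refine h1.trans ?_
  have hGj0 : 0 < GG (PP w (Y ^ j)) (Y ^ e) := GG_pos hξ2
  have hwr : (0 : ℝ) < w := by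
    have : 0 < w := by omega
    exact_mod_cast this
  have hw' : (0 : ℝ) < 1 + 1 / (w : ℝ) := by positivity
  have e4 : 1 / GG (PP w (Y ^ j)) (Y ^ e) ≤
      (1 + 1 / (w : ℝ)) / ((Jm j e : ℝ) / SC * (c * Real.log Y)) := by
    rw [div_le_div_iff₀ hGj0 (by positivity), one_mul]
    exact hG
  have hpr : (0 : ℝ) < p := by exact_mod_cast hp.2.pos
  have e5 : X / p * (1 / GG (PP w (Y ^ j)) (Y ^ e)) ≤
      X / (c * Real.log Y) * ((1 + 1 / (w : ℝ)) * ((SC : ℝ) / Jm j e)) * (1 / (p : ℝ)) := by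
    calc X / p * (1 / GG (PP w (Y ^ j)) (Y ^ e)) ≤
          X / p * ((1 + 1 / (w : ℝ)) / ((Jm j e : ℝ) / SC * (c * Real.log Y))) :=
          mul_le_mul_of_nonneg_left e4 (by positivity)
      _ = _ := by field_simp
  linarith

end Pool.Agent.Sv
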