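import Pool.Agent.PalT.Defs

/-!
# Combinatorial part of the weighted sieve
-/

namespace Pool.Agent.Sv

open Finset

lemma omv_nonneg {v Y p : ℕ} (hv : 1 ≤ v) (hY : 2 ≤ Y) (hp0 : 0 < p) (hp : p ≤ Y ^ v) :
    0 ≤ omv v Y p := by
  unfold omv
  have hv0 : (0 : ℝ) < v := by exact_mod_cast hv
  have hlog : 0 < Real.log Y := Real.log_pos (by
    have : 1 < Y := by omega
    exact_mod_cast this)
  rw [sub_nonneg, div_le_one (by positivity)]
  have h1 : Real.log p ≤ Real.log ((Y ^ v : ℕ) : ℝ) :=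
    Real.log_le_log (by exact_mod_cast hp0) (by exact_mod_cast hp)
  push_cast at h1
  rw [Real.log_pow] at h1
  exact h1

lemma omv_le_one {v Y p : ℕ} (hv : 1 ≤ v) (hY : 2 ≤ Y) (hp0 : 0 < p) : omv v Y p ≤ 1 := by
  unfold omv
  have hv0 : (0 : ℝ) < v := by exact_mod_cast hv
  have hlog : 0 < Real.log Y := Real.log_pos (by
    have : 1 < Y := by omega
    exact_mod_cast this)
  have : 0 ≤ Real.log p := Real.log_nonneg (by exact_mod_cast hp0)
  have : 0 ≤ Real.log p / (v * Real.log Y) := by positivity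
  linarith

/-- `Ω(n)` against the weights. -/
lemma Omega_leT {Y n r X a0 v : ℕ} (hv : 1 ≤ v) (hY : 2 ≤ Y) (hn : 0 < n)
    (hnY : n < Y ^ X)
    (hz : ∀ p ∈ n.primeFactors, Y ^ a0 ≤ p)
    (hsq : ∀ p, p.Prime → Y ^ a0 ≤ p → p < Y ^ v → ¬ p ^ 2 ∣ n)
    (hΩ : r + 1 ≤ ArithmeticFunction.cardFactors n) :
    (r : ℝ) + 1 - X / v ≤
      ∑ p ∈ (Ico (Y ^ a0) (Y ^ v)).filter (fun p => p.Prime ∧ p ∣ n), omv v Y p := by
  have hv0 : (0 : ℝ) < v := by exact_mod_cast hv
  have hlog : 0 < Real.log Y := Real.log_pos (by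
    have : 1 < Y := by omega
    exact_mod_cast this)
  -- the sum over all prime factors
  have h1 : ∑ p ∈ n.primeFactors, (n.factorization p : ℝ) * omv v Y p ≤
      ∑ p ∈ (Ico (Y ^ a0) (Y ^ v)).filter (fun p => p.Prime ∧ p ∣ n), omv v Y p := by
    rw [← Finset.sum_filter_add_sum_filter_not n.primeFactors (fun p => p < Y ^ v)]
    have e1 : ∑ p ∈ n.primeFactors.filter (fun p => ¬ p < Y ^ v),
        (n.factorization p : ℝ) * omv v Y p ≤ 0 := by
      refine Finset.sum_nonpos fun p hp => ?_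
      rw [mem_filter] at hp
      have h2 : omv v Y p ≤ 0 := by
        unfold omv
        rw [sub_nonpos, le_div_iff₀ (by positivity), one_mul]
        have h3 : Real.log ((Y ^ v : ℕ) : ℝ) ≤ Real.log p := by
          refine Real.log_le_log ?_ ?_
          · have : 0 < Y ^ v := by positivity
            exact_mod_cast this
          · have := hp.2
            push Not at this
            exact_mod_cast this
        push_cast at h3
        rw [Real.log_pow] at h3
        exact h3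
      exact mul_nonpos_of_nonneg_of_nonpos (Nat.cast_nonneg _) h2
    have e2 : ∑ p ∈ n.primeFactors.filter (fun p => p < Y ^ v),
        (n.factorization p : ℝ) * omv v Y p =
        ∑ p ∈ (Ico (Y ^ a0) (Y ^ v)).filter (fun p => p.Prime ∧ p ∣ n), omv v Y p := by
      have e3 : n.primeFactors.filter (fun p => p < Y ^ v) =
          (Ico (Y ^ a0) (Y ^ v)).filter (fun p => p.Prime ∧ p ∣ n) := by
        ext p
        rw [mem_filter, mem_filter, mem_Ico, Nat.mem_primeFactors]
        constructor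
        · rintro ⟨⟨a1, a2, a3⟩, a4⟩
          exact ⟨⟨hz p (Nat.mem_primeFactors.mpr ⟨a1, a2, a3⟩), a4⟩, a1, a2⟩
        · rintro ⟨⟨a1, a2⟩, a3, a4⟩
          exact ⟨⟨a3, a4, by omega⟩, a2⟩
      rw [e3]
      refine Finset.sum_congr rfl fun p hp => ?_
      rw [mem_filter, mem_Ico] at hp
      have e4 : n.factorization p = 1 := by
        have a1 := hsq p hp.2.1 hp.1.1 hp.1.2
        have a2 : 1 ≤ n.factorization p := by
          exact (hp.2.1.dvd_iff_one_le_factorization (by omega)).mp hp.2.2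
        have a3 : ¬ 2 ≤ n.factorization p := by
          intro h
          exact a1 ((hp.2.1.pow_dvd_iff_le_factorization (by omega)).mpr h)
        omega
      rw [e4]
      push_cast
      ring
    linarith
  refine le_trans ?_ h1
  have h2 : ∑ p ∈ n.primeFactors, (n.factorization p : ℝ) * omv v Y p =
      (ArithmeticFunction.cardFactors n : ℝ) - Real.log n / (v * Real.log Y) := by
    have e1 : (ArithmeticFunction.cardFactors n : ℝ) =
        ∑ p ∈ n.primeFactors, (n.factorization p : ℝ) := by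
      rw [ArithmeticFunction.cardFactors_eq_sum_factorization, Finsupp.sum]
      push_cast
      rfl
    have e2 : Real.log n = ∑ p ∈ n.primeFactors, (n.factorization p : ℝ) * Real.log p := by
      conv_lhs => rw [← Nat.prod_factorization_pow_eq_self (show n ≠ 0 by omega)]
      rw [Finsupp.prod, Nat.cast_prod, Real.log_prod]
      · refine Finset.sum_congr rfl fun p _ => ?_
        rw [Nat.cast_pow, Real.log_pow]
      · intro p hp
        have : p.Prime := (Nat.mem_primeFactors.mp hp).1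
        have : (p : ℝ) ≠ 0 := by
          have := this.pos
          positivity
        push_cast
        positivity
    rw [e1, e2, Finset.sum_div, ← Finset.sum_sub_distrib]
    refine Finset.sum_congr rfl fun p _ => ?_
    unfold omv
    ring
  rw [h2]
  have h3 : Real.log n ≤ X * Real.log Y := by
    have e1 : Real.log (n : ℝ) ≤ Real.log ((Y ^ X : ℕ) : ℝ) :=
      Real.log_le_log (by exact_mod_cast hn) (by exact_mod_cast hnY.le)
    push_cast at e1
    rw [Real.log_pow] at e1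
    exact e1
  have h4 : Real.log n / (v * Real.log Y) ≤ X / v := by
    rw [div_le_div_iff₀ (by positivity) hv0]
    have := mul_le_mul_of_nonneg_right h3 hv0.le
    linarith
  have h5 : ((r : ℝ) + 1) ≤ (ArithmeticFunction.cardFactors n : ℝ) := by exact_mod_cast hΩ
  linarith

/-- The weights against the number of prime factors. -/
lemma weight_leT {w Y r X a0 v : ℕ} (hv : 1 ≤ v) (hX : X < (r + 1) * v) (hY : 2 ≤ Y)
    (I : Finset ℕ) (a : ℕ → ℕ)
    (ha : ∀ i ∈ I, 0 < a i ∧ a i < Y ^ X ∧ ∀ p ∈ (a i).primeFactors, w < p) :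
    ((r : ℝ) + 1 - X / v) * ((Sf (PP w (Y ^ a0)) I a 1).card : ℝ) -
      ∑ p ∈ (Ico (Y ^ a0) (Y ^ v)).filter Nat.Prime,
        omv v Y p * ((Sf (PP w (Y ^ a0)) I a p).card : ℝ) ≤
      ((r : ℝ) + 1 - X / v) * (((GoodT r a0 Y I a).card : ℝ) +
        ∑ p ∈ (Ico (Y ^ a0) (Y ^ v)).filter Nat.Prime, (Nq I a (p ^ 2) : ℝ)) := by
  have hv0 : (0 : ℝ) < v := by exact_mod_cast hv
  set lam : ℝ := (r : ℝ) + 1 - X / v with hlam
  have hlam0 : 0 < lam := by
    rw [hlam, sub_pos, div_lt_iff₀ hv0]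
    exact_mod_cast hX
  set S0 := Sf (PP w (Y ^ a0)) I a 1 with hS0
  -- rewrite the left side as a sum over `S0`
  have h1 : ∑ p ∈ (Ico (Y ^ a0) (Y ^ v)).filter Nat.Prime,
        omv v Y p * ((Sf (PP w (Y ^ a0)) I a p).card : ℝ) =
      ∑ i ∈ S0, ∑ p ∈ (Ico (Y ^ a0) (Y ^ v)).filter (fun p => p.Prime ∧ p ∣ a i), omv v Y p := by
    have e1 : ∀ i ∈ S0, ∑ p ∈ (Ico (Y ^ a0) (Y ^ v)).filter (fun p => p.Prime ∧ p ∣ a i),
        omv v Y p =
        ∑ p ∈ (Ico (Y ^ a0) (Y ^ v)).filter Nat.Prime, if p ∣ a i then omv v Y p else 0 := by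
      intro i _
      rw [← Finset.sum_filter, filter_filter]
    rw [Finset.sum_congr rfl e1, Finset.sum_comm]
    refine Finset.sum_congr rfl fun p _ => ?_
    rw [← Finset.sum_filter, sum_const, nsmul_eq_mul, mul_comm]
    congr 2
    congr 1
    rw [hS0]
    unfold Sf
    rw [filter_filter]
    refine Finset.filter_congr fun i _ => ?_
    simp only [one_dvd, true_and]
    exact And.comm
  have h2 : lam * (S0.card : ℝ) = ∑ i ∈ S0, lam := by
    rw [sum_const, nsmul_eq_mul, mul_comm]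
  rw [h1, h2, ← Finset.sum_sub_distrib]
  have h3 : lam * (((GoodT r a0 Y I a).card : ℝ) +
        ∑ p ∈ (Ico (Y ^ a0) (Y ^ v)).filter Nat.Prime, (Nq I a (p ^ 2) : ℝ)) =
      ∑ i ∈ I, lam * ((if ArithmeticFunction.cardFactors (a i) ≤ r ∧
        ∀ p ∈ (a i).primeFactors, Y ^ a0 ≤ p then (1 : ℝ) else 0) +
        ∑ p ∈ (Ico (Y ^ a0) (Y ^ v)).filter Nat.Prime, if p ^ 2 ∣ a i then (1 : ℝ) else 0) := by
    rw [← Finset.mul_sum, Finset.sum_add_distrib, Finset.sum_comm]
    congr 2
    · unfold GoodT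
      rw [Finset.card_filter]
      push_cast
      rfl
    · refine Finset.sum_congr rfl fun p _ => ?_
      unfold Nq
      rw [Finset.card_filter]
      push_cast
      rfl
  rw [h3]
  have hsub : S0 ⊆ I := by rw [hS0]; exact filter_subset _ _
  refine le_trans ?_ (sum_le_sum_of_subset_of_nonneg hsub fun i _ _ => ?_)
  · refine Finset.sum_le_sum fun i hi => ?_
    have hiI := hsub hi
    obtain ⟨a1, a2, a3⟩ := ha i hiI
    rw [hS0, Sf, mem_filter] at hi
    have hdv := hi.2.2
    have hz : ∀ p ∈ (a i).primeFactors, Y ^ a0 ≤ p := by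
      intro p hp
      by_contra hcon
      push Not at hcon
      have hp' := Nat.mem_primeFactors.mp hp
      have : p ∈ dv (PP w (Y ^ a0)) (a i) := by
        unfold dv
        rw [mem_filter, mem_PP]
        exact ⟨⟨a3 p hp, hcon, hp'.1⟩, hp'.2.1⟩
      rw [hdv] at this
      exact absurd this (notMem_empty _)
    have hT0 : 0 ≤ ∑ p ∈ (Ico (Y ^ a0) (Y ^ v)).filter (fun p => p.Prime ∧ p ∣ a i),
        omv v Y p := by
      refine Finset.sum_nonneg fun p hp => ?_
      rw [mem_filter, mem_Ico] at hp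
      exact omv_nonneg hv hY hp.2.1.pos hp.1.2.le
    have hs0 : 0 ≤ ∑ p ∈ (Ico (Y ^ a0) (Y ^ v)).filter Nat.Prime,
        (if p ^ 2 ∣ a i then (1 : ℝ) else 0) :=
      Finset.sum_nonneg fun p _ => by split_ifs <;> norm_num
    have hi0 : (0 : ℝ) ≤ if ArithmeticFunction.cardFactors (a i) ≤ r ∧
        ∀ p ∈ (a i).primeFactors, Y ^ a0 ≤ p then (1 : ℝ) else 0 := by split_ifs <;> norm_num
    by_cases hsq : ∃ p, p.Prime ∧ Y ^ a0 ≤ p ∧ p < Y ^ v ∧ p ^ 2 ∣ a i
    · obtain ⟨p, q1, q2, q3, q4⟩ := hsq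
      have e1 : (1 : ℝ) ≤ ∑ p ∈ (Ico (Y ^ a0) (Y ^ v)).filter Nat.Prime,
          (if p ^ 2 ∣ a i then (1 : ℝ) else 0) := by
        have e2 : (if p ^ 2 ∣ a i then (1 : ℝ) else 0) = 1 := if_pos q4
        have e3 := Finset.single_le_sum (f := fun p => if p ^ 2 ∣ a i then (1 : ℝ) else 0)
          (s := (Ico (Y ^ a0) (Y ^ v)).filter Nat.Prime)
          (fun _ _ => by split_ifs <;> norm_num)
          (mem_filter.mpr ⟨mem_Ico.mpr ⟨q2, q3⟩, q1⟩)
        simp only [e2] at e3
        exact e3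
      have e4 : lam * 1 ≤ lam * ((if ArithmeticFunction.cardFactors (a i) ≤ r ∧
          ∀ p ∈ (a i).primeFactors, Y ^ a0 ≤ p then (1 : ℝ) else 0) +
          ∑ p ∈ (Ico (Y ^ a0) (Y ^ v)).filter Nat.Prime, if p ^ 2 ∣ a i then (1 : ℝ) else 0) :=
        mul_le_mul_of_nonneg_left (by linarith) hlam0.le
      linarith
    · push Not at hsq
      by_cases hΩ : ArithmeticFunction.cardFactors (a i) ≤ r
      · rw [if_pos ⟨hΩ, hz⟩]
        have e4 : lam * 1 ≤ lam * (1 +
            ∑ p ∈ (Ico (Y ^ a0) (Y ^ v)).filter Nat.Prime, if p ^ 2 ∣ a i then (1 : ℝ) else 0) :=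
          mul_le_mul_of_nonneg_left (by linarith) hlam0.le
        linarith
      · have := Omega_leT hv hY a1 a2 hz hsq (r := r) (by omega)
        have : 0 ≤ lam * ((if ArithmeticFunction.cardFactors (a i) ≤ r ∧
          ∀ p ∈ (a i).primeFactors, Y ^ a0 ≤ p then (1 : ℝ) else 0) +
          ∑ p ∈ (Ico (Y ^ a0) (Y ^ v)).filter Nat.Prime, if p ^ 2 ∣ a i then (1 : ℝ) else 0) :=
          mul_nonneg hlam0.le (add_nonneg hi0 hs0)
        linarith
  · refine mul_nonneg hlam0.le (add_nonneg ?_ (Finset.sum_nonneg fun p _ => ?_)) <;>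
      split_ifs <;> norm_num

end Pool.Agent.Sv
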