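import Pool.Agent.PalT.MainLow
import Pool.Agent.PalT.Loss
import Pool.Agent.PalT.UpBlk
import Pool.Agent.PalT.PSum
import Pool.Agent.PalT.Buch
import Pool.Agent.PalT.Wt

/-!
# The weighted sieve, general parameters
-/

namespace Pool.Agent.Sv

open Finset Filter Topology

/-- The numerical condition of the sieve (`w ≥ 10^6`). -/
def chkT (E a1 a0 v r X : ℕ) : Bool :=
  let eW := (E - a1) / 2
  let Gm := Jm a1 eW
  let B := buchS E a1 (a0 - a1)
  let R := wtS E a0 v (v - a0)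
  let Lam := (r + 1) * v - X
  (Nat.ble 2 a1 && Nat.ble a1 a0 && Nat.ble (a0 + 1) v && Nat.ble (v + 3) E &&
    Nat.ble (2 * a1 + 2) eW && Nat.ble (X + 1) ((r + 1) * v) && Nat.ble 1 Gm &&
    posB E a1 (a0 - a1) && posW E a0 (v - a0) &&
    Nat.ble (GpS a1 eW * 1000001 * (Lam * B + v * R) * Gm + 1 +
      Lam * (1000001 * DpS a1 eW) * SC * SC) (Lam * (999998 * Gm) * SC * SC))

lemma Etot_mono {w D D' : ℕ} (h : D ≤ D') (r : ℕ → ℝ) (hr : ∀ q, 0 ≤ r q) :
    Etot w D r ≤ Etot w D' r := by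
  unfold Etot
  refine sum_le_sum_of_subset_of_nonneg ?_ fun q _ _ => by
    have := hr q
    positivity
  intro q hq
  unfold MM at hq ⊢
  rw [mem_filter, mem_Ico] at hq ⊢
  exact ⟨⟨hq.1.1, by omega⟩, hq.2⟩

lemma Etot_nonneg {w D : ℕ} (r : ℕ → ℝ) (hr : ∀ q, 0 ≤ r q) : 0 ≤ Etot w D r :=
  Finset.sum_nonneg fun q _ => mul_nonneg (by positivity) (hr q)

lemma posB_spec {E a : ℕ} : ∀ {n : ℕ}, posB E a n = true → ∀ i ∈ Ico a (a + n),
    1 ≤ Jm i ((E - i - 1) / 2) := by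
  intro n
  induction n with
  | zero => intro _ i hi; simp at hi
  | succ n ih =>
    intro h i hi
    unfold posB at h
    rw [Bool.and_eq_true, Nat.ble_eq] at h
    rw [mem_Ico] at hi
    rcases Nat.lt_or_ge i (a + n) with h1 | h1
    · exact ih h.1 i (mem_Ico.mpr ⟨hi.1, h1⟩)
    · have : i = a + n := by omega
      rw [this]
      exact h.2

lemma posW_spec {E a : ℕ} : ∀ {n : ℕ}, posW E a n = true → ∀ i ∈ Ico a (a + n),
    1 ≤ Jm a ((E - i - 1) / 2) := by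
  intro n
  induction n with
  | zero => intro _ i hi; simp at hi
  | succ n ih =>
    intro h i hi
    unfold posW at h
    rw [Bool.and_eq_true, Nat.ble_eq] at h
    rw [mem_Ico] at hi
    rcases Nat.lt_or_ge i (a + n) with h1 | h1
    · exact ih h.1 i (mem_Ico.mpr ⟨hi.1, h1⟩)
    · have : i = a + n := by omega
      rw [this]
      exact h.2

/-- One term of `buchS`. -/
def tB (E i : ℕ) : ℕ := (2 * i + 1) * SC * SC / (2 * i * (i + 1) * Jm i ((E - i - 1) / 2)) + 1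

/-- One term of `wtS`. -/
def tW (E a v i : ℕ) : ℕ :=
  ((2 * i + 1) * v - 2 * i * (i + 1)) * SC * SC / (2 * i * (i + 1) * v * Jm a ((E - i - 1) / 2)) + 1

lemma buchS_eq (E a n : ℕ) : buchS E a n = ∑ i ∈ Ico a (a + n), tB E i := by
  induction n with
  | zero => simp [buchS]
  | succ n ih =>
    rw [← add_assoc, Finset.sum_Ico_succ_top (by omega), ← ih]
    rfl

lemma wtS_eq (E a v n : ℕ) : wtS E a v n = ∑ i ∈ Ico a (a + n), tW E a v i := by
  induction n with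
  | zero => simp [wtS]
  | succ n ih =>
    rw [← add_assoc, Finset.sum_Ico_succ_top (by omega), ← ih]
    rfl

/-- Natural division plus one is larger than the quotient. -/
lemma lt_natDiv (x : ℕ) {y : ℕ} (hy : 0 < y) : (x : ℝ) / y < ((x / y : ℕ) : ℝ) + 1 := by
  rw [div_lt_iff₀ (by exact_mod_cast hy)]
  have h := Nat.lt_div_mul_add (a := x) hy
  have : x < (x / y + 1) * y := by
    have e : (x / y + 1) * y = x / y * y + y := by ring
    omega
  exact_mod_cast this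

lemma tB_gt {E i : ℕ} (hi : 1 ≤ i) (hJ : 1 ≤ Jm i ((E - i - 1) / 2)) :
    Real.log ((i : ℝ) + 1) - Real.log i < (tB E i : ℝ) / SC * (Jm i ((E - i - 1) / 2) / SC) := by
  have hS := SC_pos
  set Jn := Jm i ((E - i - 1) / 2) with hJn
  have hJr : (0 : ℝ) < Jn := by exact_mod_cast hJ
  have hir : (0 : ℝ) < i := by exact_mod_cast hi
  have h1 := log_succ_le hi
  have h2 := lt_natDiv ((2 * i + 1) * SC * SC) (y := 2 * i * (i + 1) * Jn) (by positivity)
  refine lt_of_le_of_lt h1 ?_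
  have h3 : (tB E i : ℝ) = (((2 * i + 1) * SC * SC / (2 * i * (i + 1) * Jn) : ℕ) : ℝ) + 1 := by
    unfold tB
    rw [← hJn]
    push_cast
    ring
  rw [h3, div_mul_div_comm, lt_div_iff₀ (by positivity)]
  rw [div_lt_iff₀ (by positivity)] at h2
  rw [div_mul_eq_mul_div, div_lt_iff₀ (by positivity)]
  push_cast at h2 ⊢
  nlinarith

lemma tW_gt {E a v i : ℕ} (hi : 1 ≤ i) (hv : i + 1 ≤ v) (hJ : 1 ≤ Jm a ((E - i - 1) / 2)) :
    Real.log ((i : ℝ) + 1) - Real.log i - 1 / v <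
      (tW E a v i : ℝ) / SC * (Jm a ((E - i - 1) / 2) / SC) := by
  have hS := SC_pos
  set Jn := Jm a ((E - i - 1) / 2) with hJn
  have hv0' : 0 < v := by omega
  have hJ0' : 0 < Jn := by omega
  have hJr : (0 : ℝ) < Jn := by exact_mod_cast hJ
  have hir : (0 : ℝ) < i := by exact_mod_cast hi
  have hvr : (0 : ℝ) < v := by
    have : 0 < v := by omega
    exact_mod_cast this
  have h1 := log_succ_le hi
  have hle : 2 * i * (i + 1) ≤ (2 * i + 1) * v := by
    calc 2 * i * (i + 1) ≤ 2 * i * v := Nat.mul_le_mul_left _ hv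
      _ ≤ (2 * i + 1) * v := Nat.mul_le_mul_right _ (by omega)
  have h2 := lt_natDiv (((2 * i + 1) * v - 2 * i * (i + 1)) * SC * SC)
    (y := 2 * i * (i + 1) * v * Jn)
    (Nat.mul_pos (Nat.mul_pos (Nat.mul_pos (by omega) (by omega)) hv0') hJ0')
  have h3 : (tW E a v i : ℝ) =
      (((((2 * i + 1) * v - 2 * i * (i + 1)) * SC * SC / (2 * i * (i + 1) * v * Jn) : ℕ)) : ℝ) + 1 := by
    unfold tW
    rw [← hJn]
    push_cast
    ring
  have h4 : (2 * (i : ℝ) + 1) / (2 * i * (i + 1)) - 1 / v =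
      ((2 * (i : ℝ) + 1) * v - 2 * i * (i + 1)) / (2 * i * (i + 1) * v) := by
    field_simp
  have h5 : Real.log ((i : ℝ) + 1) - Real.log i - 1 / v ≤
      ((2 * (i : ℝ) + 1) * v - 2 * i * (i + 1)) / (2 * i * (i + 1) * v) := by
    rw [← h4]
    linarith
  refine lt_of_le_of_lt h5 ?_
  rw [h3, div_mul_div_comm, lt_div_iff₀ (by positivity)]
  rw [div_lt_iff₀ (by positivity)] at h2
  rw [div_mul_eq_mul_div, div_lt_iff₀ (by positivity)]
  push_cast [Nat.cast_sub hle] at h2 ⊢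
  nlinarith

/-- Splitting a range of primes into blocks. -/
lemma sum_PB (Y : ℕ) (hY : 1 ≤ Y) (f : ℕ → ℝ) {s t : ℕ} (hst : s ≤ t) :
    ∑ i ∈ Ico s t, ∑ p ∈ PB Y i, f p = ∑ p ∈ (Ico (Y ^ s) (Y ^ t)).filter Nat.Prime, f p := by
  have h := sum_Ico_telescope (fun j => Y ^ (s + j)) f (t - s)
    (fun j _ => Nat.pow_le_pow_right hY (by omega))
  simp only [add_zero] at h
  have e : s + (t - s) = t := by omega
  rw [e] at h
  rw [← h, Finset.sum_Ico_eq_sum_range]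
  rfl

/-- The final numerical step. -/
lemma num_pos {w : ℝ} (hw : 1000000 ≤ w) {Gp Gm Dp B R Lam v S : ℝ} (hGp : 0 < Gp) (hGm : 0 < Gm)
    (hDp : 0 ≤ Dp) (hB : 0 ≤ B) (hR : 0 ≤ R) (hLam : 0 < Lam) (hv : 0 < v) (hS : 0 < S)
    (h : Gp * 1000001 * (Lam * B + v * R) * Gm + 1 + Lam * (1000001 * Dp) * S * S ≤
      Lam * (999998 * Gm) * S * S) :
    0 ≤ 1 - 2 / w - (1 + 1 / w) * (Dp / Gm) ∧
    0 < Lam / v * (S / Gp * (1 - 2 / w - (1 + 1 / w) * (Dp / Gm)) - (1 + 1 / w) * (B / S)) -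
      (1 + 1 / w) * (R / S) := by
  have hw0 : 0 < w := by linarith
  have ht : 1 / w ≤ 1 / 1000000 := one_div_le_one_div_of_le (by norm_num) hw
  have ht0 : 0 < 1 / w := by positivity
  set t := 1 / w with htd
  have h2w : 2 / w = 2 * t := by rw [htd]; ring
  rw [h2w]
  set x := Dp / Gm with hx
  have hx0 : 0 ≤ x := by positivity
  have hDx : Dp = x * Gm := by rw [hx]; field_simp
  -- the bracket
  have h1 : 1000001 * x ≤ 999998 := by
    have e1 : 0 ≤ Gp * 1000001 * (Lam * B + v * R) * Gm := by positivity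
    have e2 : Lam * (1000001 * Dp) * S * S ≤ Lam * (999998 * Gm) * S * S := by linarith
    have e3 : (Lam * S * S * Gm) * (1000001 * x) ≤ (Lam * S * S * Gm) * 999998 := by
      rw [hDx] at e2
      nlinarith
    exact le_of_mul_le_mul_left e3 (by positivity)
  have hβ : 1 - 2 * (1 / 1000000) - (1 + 1 / 1000000) * x ≤ 1 - 2 * t - (1 + t) * x := by
    nlinarith
  have hβ0 : 0 ≤ 1 - 2 * (1 / 1000000) - (1 + 1 / 1000000) * x := by linarith
  refine ⟨hβ0.trans hβ, ?_⟩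
  -- divide the inequality
  have h2 : (1 + 1 / 1000000) * (Lam * B + v * R) / S <
      Lam * (S / Gp) * (1 - 2 * (1 / 1000000) - (1 + 1 / 1000000) * x) := by
    rw [div_lt_iff₀ hS]
    have e1 : Lam * (S / Gp) * (1 - 2 * (1 / 1000000) - (1 + 1 / 1000000) * x) * S =
        (Lam * S * S * (1 - 2 * (1 / 1000000) - (1 + 1 / 1000000) * x)) / Gp := by
      field_simp
    rw [e1, lt_div_iff₀ hGp]
    rw [hDx] at h
    have e2 : (1 + 1 / 1000000) * (Lam * B + v * R) * Gp * (1000000 * Gm) + 1 ≤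
        Lam * S * S * (1 - 2 * (1 / 1000000) - (1 + 1 / 1000000) * x) * (1000000 * Gm) := by
      nlinarith
    have e3 : (1 + 1 / 1000000) * (Lam * B + v * R) * Gp * (1000000 * Gm) <
        Lam * S * S * (1 - 2 * (1 / 1000000) - (1 + 1 / 1000000) * x) * (1000000 * Gm) := by
      linarith
    exact lt_of_mul_lt_mul_right e3 (by positivity)
  have h3 : (1 + t) * (Lam * B + v * R) / S ≤ (1 + 1 / 1000000) * (Lam * B + v * R) / S := by
    refine div_le_div_of_nonneg_right ?_ hS.le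
    exact mul_le_mul_of_nonneg_right (by linarith) (by positivity)
  have h4 : Lam * (S / Gp) * (1 - 2 * (1 / 1000000) - (1 + 1 / 1000000) * x) ≤
      Lam * (S / Gp) * (1 - 2 * t - (1 + t) * x) :=
    mul_le_mul_of_nonneg_left hβ (by positivity)
  have h5 : Lam / v * (S / Gp * (1 - 2 * t - (1 + t) * x) - (1 + t) * (B / S)) -
      (1 + t) * (R / S) = (Lam * (S / Gp) * (1 - 2 * t - (1 + t) * x) -
      (1 + t) * (Lam * B + v * R) / S) / v := by
    field_simp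
    ring
  rw [h5]
  exact div_pos (by linarith) hv

/-- The upper bound for the primes of a block, as a predicate. -/
def BU (w : ℕ) (c : ℝ) (E j i Y : ℕ) : Prop :=
  ∀ (I : Finset ℕ) (a : ℕ → ℕ) (X : ℝ) (r : ℕ → ℝ), 0 ≤ X →
      (∀ q, 0 ≤ r q) → (∀ q ∈ MM w (Y ^ E), |(Nq I a q : ℝ) - X / q| ≤ r q) →
      ∀ p ∈ PB Y i, ((Sf (PP w (Y ^ j)) I a p).card : ℝ) ≤
        X / (c * Real.log Y) * ((1 + 1 / (w : ℝ)) * ((SC : ℝ) / Jm j ((E - i - 1) / 2))) *
          (1 / (p : ℝ)) +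
        ∑ W ∈ (PP w (Y ^ j)).powerset.filter (fun W => pr W < (Y ^ ((E - i - 1) / 2)) ^ 2),
          (4 : ℝ) ^ W.card * r (p * pr W)

/-- **The weighted sieve.** -/
theorem weighted_sieveT {w : ℕ} (hw : 1000000 ≤ w) {E a1 a0 v r X : ℕ}
    (hchk : chkT E a1 a0 v r X = true) :
    ∃ κ : ℝ, 0 < κ ∧ ∃ K : ℝ, 0 < K ∧ ∃ Y0 : ℕ, ∀ Y : ℕ, Y0 ≤ Y →
    ∀ (I : Finset ℕ) (a : ℕ → ℕ) (Z : ℝ) (rr : ℕ → ℝ), 0 ≤ Z → (∀ q, 0 ≤ rr q) →
    (∀ i ∈ I, 0 < a i ∧ a i < Y ^ X ∧ ∀ p ∈ (a i).primeFactors, w < p) →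
    (∀ q ∈ MM w (Y ^ E), |(Nq I a q : ℝ) - Z / q| ≤ rr q) →
    κ * Z / Real.log Y - K * Etot w (Y ^ E) rr -
      K * ∑ p ∈ (Ico (Y ^ a0) (Y ^ v)).filter Nat.Prime, (Nq I a (p ^ 2) : ℝ) ≤
      ((GoodT r a0 Y I a).card : ℝ) := by
  have hS := SC_pos
  simp only [chkT, Bool.and_eq_true, Nat.ble_eq] at hchk
  obtain ⟨⟨⟨⟨⟨⟨⟨⟨⟨c1, c2⟩, c3⟩, c4⟩, c5⟩, c6⟩, c7⟩, c8⟩, c9⟩, c10⟩ := hchk
  set eW := (E - a1) / 2 with heW
  set Gm := Jm a1 eW with hGmd
  set B := buchS E a1 (a0 - a1) with hBd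
  set R := wtS E a0 v (v - a0) with hRd
  set Lam := (r + 1) * v - X with hLamd
  set Gp := GpS a1 eW with hGpd
  set Dp := DpS a1 eW with hDpd
  have e10 : a1 + (a0 - a1) = a0 := by omega
  have e0v : a0 + (v - a0) = v := by omega
  have hposB := posB_spec c8
  have hposW := posW_spec c9
  rw [e10] at hposB
  rw [e0v] at hposW
  have hB' : B = ∑ i ∈ Ico a1 a0, tB E i := by rw [hBd, buchS_eq, e10]
  have hR' : R = ∑ i ∈ Ico a0 v, tW E a0 v i := by rw [hRd, wtS_eq, e0v]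
  obtain ⟨c, C, hc0, hcc, hC, h⟩ := exists_L0 w
  have hw1 : 1 ≤ w := by omega
  have hwr : (1000000 : ℝ) ≤ w := by exact_mod_cast hw
  have hGp : (0 : ℝ) < Gp := by
    have : 0 < Gp := by
      rw [hGpd]
      unfold GpS
      omega
    exact_mod_cast this
  have hGm : (0 : ℝ) < Gm := by exact_mod_cast c7
  have hvr : (0 : ℝ) < v := by
    have : 0 < v := by omega
    exact_mod_cast this
  have hLam0 : 0 < Lam := by omega
  have hLam : (0 : ℝ) < Lam := by exact_mod_cast hLam0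
  have hLamv : (Lam : ℝ) / v = (r : ℝ) + 1 - X / v := by
    rw [hLamd, Nat.cast_sub (by omega)]
    push_cast
    field_simp
  obtain ⟨hβ0, hQ⟩ := num_pos (w := (w : ℝ)) hwr hGp hGm (Dp := (Dp : ℝ)) (B := (B : ℝ))
    (R := (R : ℝ)) (Lam := (Lam : ℝ)) (v := (v : ℝ)) (S := (SC : ℝ)) (Nat.cast_nonneg _)
    (Nat.cast_nonneg _) (Nat.cast_nonneg _) hLam hvr hS (by exact_mod_cast c10)
  set β : ℝ := 1 - 2 / (w : ℝ) - (1 + 1 / w) * (Dp / Gm) with hβ
  set Q : ℝ := Lam / v * (SC / Gp * β - (1 + 1 / w) * (B / SC)) - (1 + 1 / w) * (R / SC) with hQd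
  set L' : ℝ := Lam / v with hL'
  have hL'0 : 0 < L' := by positivity
  -- eventual facts
  have ev1 := Dx_le hw1 hc0 hcc hC h c1 c5
  have ev2 := GG_up hc0 hcc hC h (a := a1) (e := eW) (by omega) (by omega)
  have ev3 := GG_low hw1 hc0 hcc hC h c1 eW
  have ev4 : ∀ᶠ Y : ℕ in atTop, ∀ i ∈ Ico a1 a0, BU w c E i i Y :=
    (Filter.eventually_all_finset (Ico a1 a0)).mpr fun i hi =>
      blk_upper hw1 hc0 hcc hC h (E := E) (j := i) (i := i) (by
        rw [mem_Ico] at hi; omega) le_rfl (by rw [mem_Ico] at hi; omega) (hposB i hi)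
  have ev5 : ∀ᶠ Y : ℕ in atTop, ∀ i ∈ Ico a0 v, BU w c E a0 i Y :=
    (Filter.eventually_all_finset (Ico a0 v)).mpr fun i hi =>
      blk_upper hw1 hc0 hcc hC h (E := E) (j := a0) (i := i) (by omega) (by
        rw [mem_Ico] at hi; omega) (by rw [mem_Ico] at hi; omega) (hposW i hi)
  have ev6 : ∀ᶠ Y : ℕ in atTop, ∀ i ∈ Ico a1 a0, ∑ p ∈ PB Y i, 1 / (p : ℝ) ≤
      (tB E i : ℝ) / SC * (Jm i ((E - i - 1) / 2) / SC) :=
    (Filter.eventually_all_finset (Ico a1 a0)).mpr fun i hi =>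
      sum_inv_blk (by rw [mem_Ico] at hi; omega) (tB_gt (by rw [mem_Ico] at hi; omega) (hposB i hi))
  have ev7 : ∀ᶠ Y : ℕ in atTop, ∀ i ∈ Ico a0 v, ∑ p ∈ PB Y i, omv v Y p * (1 / (p : ℝ)) ≤
      (tW E a0 v i : ℝ) / SC * (Jm a0 ((E - i - 1) / 2) / SC) :=
    (Filter.eventually_all_finset (Ico a0 v)).mpr fun i hi =>
      sum_omv_blk (by rw [mem_Ico] at hi; omega) (by omega)
        (tW_gt (by rw [mem_Ico] at hi; omega) (by rw [mem_Ico] at hi; omega) (hposW i hi))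
  obtain ⟨Y1, hY1⟩ := (ev1.and (ev2.and (ev3.and (ev4.and (ev5.and (ev6.and ev7)))))).exists_forall_of_atTop
  refine ⟨Q / (L' * c), by positivity, 4 + 1 / L', by positivity, max Y1 (max 3 (w + 1)), ?_⟩
  intro Y hY I a Z rr hZ hrr ha hNq
  obtain ⟨g1, g2, g3, g4, g5, g6, g7⟩ := hY1 Y ((le_max_left _ _).trans hY)
  have hY3 : 3 ≤ Y := ((le_max_left _ _).trans (le_max_right _ _)).trans hY
  have hYw : w + 1 ≤ Y := ((le_max_right _ _).trans (le_max_right _ _)).trans hY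
  have hlog : 0 < Real.log Y := Real.log_pos (by
    have : 1 < Y := by omega
    exact_mod_cast this)
  set cl : ℝ := c * Real.log Y with hcl
  have hcl0 : 0 < cl := mul_pos hc0 hlog
  have hw10 : (0 : ℝ) ≤ 1 + 1 / (w : ℝ) :=
    add_nonneg zero_le_one (div_nonneg zero_le_one (Nat.cast_nonneg _))
  set u : ℝ := Z / cl with hu
  have hu0 : 0 ≤ u := div_nonneg hZ hcl0.le
  set Et := Etot w (Y ^ E) rr with hEt
  have hEt0 : 0 ≤ Et := Etot_nonneg rr hrr
  have hYa : ∀ k, 1 ≤ k → Y ≤ Y ^ k := fun k hk => Nat.le_self_pow (by omega) Y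
  -- lower bound
  have hP : ∀ p ∈ PP w (Y ^ a1), p.Prime := fun p hp => (mem_PP.mp hp).2.2
  have hPz : ∀ p ∈ PP w (Y ^ a1), p ≤ Y ^ a1 := fun p hp => (mem_PP.mp hp).2.1.le
  have hξ2 : 2 ≤ Y ^ eW := by
    have := hYa eW (by omega)
    omega
  have hzξ : Y ^ a1 * (Y ^ eW) ^ 2 ≤ Y ^ E := by
    rw [← pow_mul, ← pow_add]
    exact Nat.pow_le_pow_right (by omega) (by omega)
  have hlow := lower_sieve hP hPz (Nat.one_le_pow _ _ (by omega)) I a (X := Z) hξ2 rr hrr (by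
      intro W hW hlt
      refine hNq _ ?_
      unfold MM
      rw [mem_filter, mem_Ico, primeFactors_pr hW]
      exact ⟨⟨pr_pos fun p hp => PP_pos (hW hp), hlt.trans_le hzξ⟩,
        fun p hp => (mem_PP.mp (hW hp)).1⟩)
  have herr1 := (sum_lower_err_le (w := w) (z := Y ^ a1) (D := Y ^ a1 * (Y ^ eW) ^ 2) rr hrr).trans
    (Etot_mono hzξ rr hrr)
  rw [← hEt] at herr1
  have hmain := main_lowerX (w := w) (z := Y ^ a1) hw1 hξ2
  set G := GG (PP w (Y ^ a1)) (Y ^ eW) with hG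
  have hG0 : 0 < G := GG_pos hξ2
  have hA : u * (SC / Gp * β) ≤ Z * (M0 (PP w (Y ^ a1)) (Y ^ eW) -
      ∑ p ∈ PP w (Y ^ a1), Mp (PP w (Y ^ a1)) (Y ^ eW) p) := by
    have e1 : (SC : ℝ) / Gp / cl ≤ 1 / G := by
      have hGc : 0 < (Gp : ℝ) * cl := mul_pos hGp hcl0
      rw [div_div, div_le_div_iff₀ hGc hG0, one_mul]
      have := g2
      rw [div_mul_eq_mul_div, le_div_iff₀ hS] at this
      linarith
    have e2 : 1 / G * Dx w (Y ^ a1) (Y ^ eW) ≤ (1 + 1 / w) * (Dp / Gm) := by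
      have k1 : 1 / G ≤ (1 + 1 / (w : ℝ)) * (SC / Gm) / cl := by
        rw [div_le_div_iff₀ hG0 hcl0, one_mul]
        have := g3
        rw [div_mul_eq_mul_div, div_le_iff₀ hS] at this
        have k2 : (1 + 1 / (w : ℝ)) * (SC / Gm) * G = ((1 + 1 / (w : ℝ)) * G * SC) / Gm := by ring
        rw [k2, le_div_iff₀ hGm]
        linarith
      have k0 : 0 ≤ (1 + 1 / (w : ℝ)) * (SC / Gm) / cl :=
        div_nonneg (mul_nonneg hw10 (div_nonneg hS.le hGm.le)) hcl0.le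
      calc 1 / G * Dx w (Y ^ a1) (Y ^ eW) ≤ 1 / G * ((Dp : ℝ) / SC * cl) :=
            mul_le_mul_of_nonneg_left g1 (one_div_pos.mpr hG0).le
        _ ≤ (1 + 1 / (w : ℝ)) * (SC / Gm) / cl * ((Dp : ℝ) / SC * cl) :=
            mul_le_mul_of_nonneg_right k1 (mul_nonneg (div_nonneg (Nat.cast_nonneg _) hS.le)
              hcl0.le)
        _ = _ := by field_simp
    have e4 : β ≤ 1 - 2 / w - 1 / G * Dx w (Y ^ a1) (Y ^ eW) := by rw [hβ]; linarith
    have e5 : (SC : ℝ) / Gp / cl * β ≤ 1 / G * (1 - 2 / w - 1 / G * Dx w (Y ^ a1) (Y ^ eW)) :=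
      mul_le_mul e1 e4 hβ0 (one_div_pos.mpr hG0).le
    calc u * (SC / Gp * β) = Z * ((SC : ℝ) / Gp / cl * β) := by rw [hu]; ring
      _ ≤ Z * (1 / G * (1 - 2 / w - 1 / G * Dx w (Y ^ a1) (Y ^ eW))) :=
          mul_le_mul_of_nonneg_left e5 hZ
      _ ≤ _ := mul_le_mul_of_nonneg_left hmain hZ
  have hlow1 : u * (SC / Gp * β) - 2 * Et ≤ ((Sf (PP w (Y ^ a1)) I a 1).card : ℝ) := by linarith
  -- Buchstab
  have hbu := buchstab (w := w) (Y := Y) (by omega) c2 (by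
    have := hYa a1 (by omega)
    omega) I a
  have hBsum : ∑ i ∈ Ico a1 a0, ∑ p ∈ PB Y i, ((Sf (PP w (Y ^ i)) I a p).card : ℝ) ≤
      u * ((1 + 1 / w) * (B / SC)) + Et := by
    have k1 : ∀ i ∈ Ico a1 a0, ∑ p ∈ PB Y i, ((Sf (PP w (Y ^ i)) I a p).card : ℝ) ≤
        u * ((1 + 1 / w) * (tB E i / SC)) + ∑ p ∈ PB Y i,
        ∑ W ∈ (PP w (Y ^ i)).powerset.filter (fun W => pr W < (Y ^ ((E - i - 1) / 2)) ^ 2),
          (4 : ℝ) ^ W.card * rr (p * pr W) := by
      intro i hi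
      have hJr : (0 : ℝ) < Jm i ((E - i - 1) / 2) := by exact_mod_cast hposB i hi
      refine (Finset.sum_le_sum fun p hp => g4 i hi I a Z rr hZ hrr hNq p hp).trans ?_
      rw [Finset.sum_add_distrib, ← Finset.mul_sum]
      refine add_le_add ?_ le_rfl
      have k2 := g6 i hi
      calc Z / cl * ((1 + 1 / (w : ℝ)) * ((SC : ℝ) / Jm i ((E - i - 1) / 2))) *
            ∑ p ∈ PB Y i, 1 / (p : ℝ)
          ≤ Z / cl * ((1 + 1 / (w : ℝ)) * ((SC : ℝ) / Jm i ((E - i - 1) / 2))) *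
            ((tB E i : ℝ) / SC * (Jm i ((E - i - 1) / 2) / SC)) :=
            mul_le_mul_of_nonneg_left k2 (mul_nonneg (div_nonneg hZ hcl0.le)
              (mul_nonneg hw10 (div_nonneg hS.le hJr.le)))
        _ = _ := by rw [hu]; field_simp
    refine (Finset.sum_le_sum k1).trans ?_
    rw [Finset.sum_add_distrib]
    refine add_le_add (le_of_eq ?_) ?_
    · rw [← Finset.mul_sum, ← Finset.mul_sum, ← Finset.sum_div, hB']
      push_cast
      rfl
    · exact sum_err_blocks (E := E) (by omega) (by omega : 1 ≤ a1) (by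
        have := hYa a1 (by omega)
        omega) (fun i => i) (fun i => (E - i - 1) / 2) (fun i _ => le_rfl)
        (fun i hi => by rw [mem_Ico] at hi; omega) rr hrr
  -- weighted sum
  have hWsum : ∑ p ∈ (Ico (Y ^ a0) (Y ^ v)).filter Nat.Prime,
      omv v Y p * ((Sf (PP w (Y ^ a0)) I a p).card : ℝ) ≤ u * ((1 + 1 / w) * (R / SC)) + Et := by
    rw [← sum_PB Y (by omega) (fun p => omv v Y p * ((Sf (PP w (Y ^ a0)) I a p).card : ℝ))
      (by omega : a0 ≤ v)]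
    have k1 : ∀ i ∈ Ico a0 v, ∑ p ∈ PB Y i, omv v Y p * ((Sf (PP w (Y ^ a0)) I a p).card : ℝ) ≤
        u * ((1 + 1 / w) * (tW E a0 v i / SC)) + ∑ p ∈ PB Y i,
        ∑ W ∈ (PP w (Y ^ a0)).powerset.filter (fun W => pr W < (Y ^ ((E - i - 1) / 2)) ^ 2),
          (4 : ℝ) ^ W.card * rr (p * pr W) := by
      intro i hi
      have hJr : (0 : ℝ) < Jm a0 ((E - i - 1) / 2) := by exact_mod_cast hposW i hi
      have hi' := mem_Ico.mp hi
      have k0 : ∀ p ∈ PB Y i, omv v Y p * ((Sf (PP w (Y ^ a0)) I a p).card : ℝ) ≤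
          Z / cl * ((1 + 1 / (w : ℝ)) * ((SC : ℝ) / Jm a0 ((E - i - 1) / 2))) *
            (omv v Y p * (1 / (p : ℝ))) +
          ∑ W ∈ (PP w (Y ^ a0)).powerset.filter (fun W => pr W < (Y ^ ((E - i - 1) / 2)) ^ 2),
            (4 : ℝ) ^ W.card * rr (p * pr W) := by
        intro p hp
        have hp1 := g5 i hi I a Z rr hZ hrr hNq p hp
        have hp' := hp
        unfold PB at hp'
        rw [mem_filter, mem_Ico] at hp'
        have o1 : 0 ≤ omv v Y p := omv_nonneg (by omega) (by omega) hp'.2.pos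
          (hp'.1.2.le.trans (Nat.pow_le_pow_right (by omega) hi'.2))
        have o2 : omv v Y p ≤ 1 := omv_le_one (by omega) (by omega) hp'.2.pos
        have e0 : 0 ≤ ∑ W ∈ (PP w (Y ^ a0)).powerset.filter
            (fun W => pr W < (Y ^ ((E - i - 1) / 2)) ^ 2), (4 : ℝ) ^ W.card * rr (p * pr W) :=
          Finset.sum_nonneg fun W _ => mul_nonneg (pow_nonneg (by norm_num) _) (hrr _)
        have hp2 := mul_le_mul_of_nonneg_left hp1 o1
        refine hp2.trans ?_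
        rw [mul_add]
        refine add_le_add (le_of_eq (by ring)) ?_
        exact mul_le_of_le_one_left e0 o2
      refine (Finset.sum_le_sum k0).trans ?_
      rw [Finset.sum_add_distrib, ← Finset.mul_sum]
      refine add_le_add ?_ le_rfl
      have k2 := g7 i hi
      calc Z / cl * ((1 + 1 / (w : ℝ)) * ((SC : ℝ) / Jm a0 ((E - i - 1) / 2))) *
            ∑ p ∈ PB Y i, omv v Y p * (1 / (p : ℝ))
          ≤ Z / cl * ((1 + 1 / (w : ℝ)) * ((SC : ℝ) / Jm a0 ((E - i - 1) / 2))) *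
            ((tW E a0 v i : ℝ) / SC * (Jm a0 ((E - i - 1) / 2) / SC)) :=
            mul_le_mul_of_nonneg_left k2 (mul_nonneg (div_nonneg hZ hcl0.le)
              (mul_nonneg hw10 (div_nonneg hS.le (Nat.cast_nonneg _))))
        _ = _ := by rw [hu]; field_simp
    refine (Finset.sum_le_sum k1).trans ?_
    rw [Finset.sum_add_distrib]
    refine add_le_add (le_of_eq ?_) ?_
    · rw [← Finset.mul_sum, ← Finset.mul_sum, ← Finset.sum_div, hR']
      push_cast
      rfl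
    · exact sum_err_blocks (E := E) (by omega) (by omega : 1 ≤ a0) (by
        have := hYa a0 (by omega)
        omega) (fun _ => a0) (fun i => (E - i - 1) / 2)
        (fun i hi => by rw [mem_Ico] at hi; exact hi.1)
        (fun i hi => by rw [mem_Ico] at hi; omega) rr hrr
  -- the weights
  have hwt := weight_leT (w := w) (Y := Y) (r := r) (X := X) (a0 := a0) (v := v) (by omega)
    (by omega) (by omega) I a ha
  rw [← hLamv] at hwt
  set S0 : ℝ := ((Sf (PP w (Y ^ a0)) I a 1).card : ℝ) with hS0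
  set sq : ℝ := ∑ p ∈ (Ico (Y ^ a0) (Y ^ v)).filter Nat.Prime, (Nq I a (p ^ 2) : ℝ) with hsq
  set Gd : ℝ := ((GoodT r a0 Y I a).card : ℝ) with hGd
  have hsq0 : 0 ≤ sq := Finset.sum_nonneg fun _ _ => Nat.cast_nonneg _
  have hS0low : u * (SC / Gp * β) - 3 * Et - u * ((1 + 1 / w) * (B / SC)) ≤ S0 := by linarith
  have hfin : u * Q - (3 * L' + 1) * Et ≤ L' * (Gd + sq) := by
    have k1 : L' * (u * (SC / Gp * β) - 3 * Et - u * ((1 + 1 / w) * (B / SC))) ≤ L' * S0 :=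
      mul_le_mul_of_nonneg_left hS0low hL'0.le
    have k2 : u * Q - (3 * L' + 1) * Et = L' * (u * (SC / Gp * β) - 3 * Et -
        u * ((1 + 1 / w) * (B / SC))) - (u * ((1 + 1 / w) * (R / SC)) + Et) := by
      rw [hQd]
      ring
    rw [k2]
    linarith
  have k3 : Q / (L' * c) * Z / Real.log Y = u * Q / L' := by
    rw [hu, hcl]
    field_simp
  rw [k3]
  have k4 : u * Q / L' ≤ Gd + sq + (3 + 1 / L') * Et := by
    rw [div_le_iff₀ hL'0]
    have : (Gd + sq + (3 + 1 / L') * Et) * L' = L' * (Gd + sq) + (3 * L' + 1) * Et := by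
      field_simp
    rw [this]
    linarith
  have k5 : sq ≤ (4 + 1 / L') * sq := by
    have : 0 ≤ (3 + 1 / L') * sq :=
      mul_nonneg (add_nonneg (by norm_num) (one_div_pos.mpr hL'0).le) hsq0
    linarith
  have k6 : (3 + 1 / L') * Et ≤ (4 + 1 / L') * Et :=
    mul_le_mul_of_nonneg_right (by linarith) hEt0
  linarith

end Pool.Agent.Sv
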