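import Pool.Agent.PalT.Grid

/-!
# Integer tables bounding the sums on the grid
-/

namespace Pool.Agent.Sv

open Finset Filter Topology

/-- The scale of the fixed point numbers. -/
def SC : ℕ := 1000000000000

lemma SC_pos : (0 : ℝ) < (SC : ℝ) := by unfold SC; norm_num

lemma log_succ_ge {n : ℕ} (hn : 1 ≤ n) :
    2 / (2 * (n : ℝ) + 1) ≤ Real.log ((n : ℝ) + 1) - Real.log n := by
  have hnr : (0 : ℝ) < n := by exact_mod_cast hn
  have h := Real.le_log_one_add_of_nonneg (x := 1 / (n : ℝ)) (by positivity)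
  have e1 : 2 * (1 / (n : ℝ)) / (1 / n + 2) = 2 / (2 * n + 1) := by field_simp; ring
  have e2 : 1 + 1 / (n : ℝ) = (n + 1) / n := by field_simp
  rw [e1, e2, Real.log_div (by positivity) hnr.ne'] at h
  exact h

lemma log_succ_le {n : ℕ} (hn : 1 ≤ n) :
    Real.log ((n : ℝ) + 1) - Real.log n ≤ (2 * (n : ℝ) + 1) / (2 * n * (n + 1)) := by
  have hnr : (0 : ℝ) < n := by exact_mod_cast hn
  rw [← Real.log_div (by positivity) hnr.ne']
  set y : ℝ := ((n : ℝ) + 1) / n with hy
  have hy1 : 1 ≤ y := by rw [hy, le_div_iff₀ hnr]; linarith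
  have h1 : Real.log y ≤ Real.sinh (Real.log y) :=
    Real.self_le_sinh_iff.mpr (Real.log_nonneg hy1)
  rw [Real.sinh_log (by linarith)] at h1
  refine h1.trans (le_of_eq ?_)
  rw [hy]
  field_simp
  ring

/-- Lower bounds for `log ((a + k) / a)`. -/
def lamL (a : ℕ) : ℕ → ℕ
  | 0 => 0
  | k + 1 => lamL a k + 2 * SC / (2 * (a + k) + 1)

/-- Upper bounds for `log ((a + k) / a)`. -/
def muU (a : ℕ) : ℕ → ℕ
  | 0 => 0
  | k + 1 => muU a k + ((2 * (a + k) + 1) * SC / (2 * (a + k) * (a + k + 1)) + 1)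

lemma natDiv_le (x y : ℕ) : ((x / y : ℕ) : ℝ) ≤ (x : ℝ) / y := Nat.cast_div_le

lemma le_natDiv (x : ℕ) {y : ℕ} (hy : 0 < y) : (x : ℝ) / y ≤ ((x / y : ℕ) : ℝ) + 1 := by
  rw [div_le_iff₀ (by exact_mod_cast hy)]
  have h := Nat.lt_div_mul_add (a := x) hy
  have : x ≤ (x / y + 1) * y := by
    have e : (x / y + 1) * y = x / y * y + y := by ring
    omega
  exact_mod_cast this

lemma lamL_le {a : ℕ} (ha : 1 ≤ a) (k : ℕ) :
    (lamL a k : ℝ) / SC ≤ Real.log ((a : ℝ) + k) - Real.log a := by
  induction k with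
  | zero => simp [lamL]
  | succ k ih =>
    have h1 := log_succ_ge (n := a + k) (by omega)
    have h2 := natDiv_le (2 * SC) (2 * (a + k) + 1)
    unfold lamL
    push_cast at h1 h2 ⊢
    have h3 : (((2 * SC / (2 * (a + k) + 1) : ℕ)) : ℝ) / SC ≤ 2 / (2 * ((a : ℝ) + k) + 1) := by
      rw [div_le_iff₀ SC_pos]
      refine h2.trans (le_of_eq ?_)
      ring
    rw [add_div]
    have e : (a : ℝ) + (k + 1) = a + k + 1 := by ring
    rw [e]
    linarith

lemma le_muU {a : ℕ} (ha : 1 ≤ a) (k : ℕ) :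
    Real.log ((a : ℝ) + k) - Real.log a ≤ (muU a k : ℝ) / SC := by
  induction k with
  | zero => simp [muU]
  | succ k ih =>
    have h1 := log_succ_le (n := a + k) (by omega)
    have h2 := le_natDiv ((2 * (a + k) + 1) * SC) (y := 2 * (a + k) * (a + k + 1)) (by positivity)
    unfold muU
    push_cast at h1 h2 ⊢
    have h3 : (2 * ((a : ℝ) + k) + 1) / (2 * (a + k) * (a + k + 1)) ≤
        (((((2 * (a + k) + 1) * SC / (2 * (a + k) * (a + k + 1)) : ℕ)) : ℝ) + 1) / SC := by
      rw [le_div_iff₀ SC_pos]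
      refine le_trans (le_of_eq ?_) h2
      ring
    rw [add_div]
    have e : (a : ℝ) + (k + 1) = a + k + 1 := by ring
    rw [e]
    linarith

/-- The table of the upper bounds of the windows, latest first. -/
def UL (a : ℕ) : ℕ → List ℕ
  | 0 => []
  | n + 1 =>
    (if n < a then SC + 1
      else if n < 2 * a then SC + 1 - lamL a (n - a) - SC / (2 * n + 1)
      else ((UL a n).take a).sum / (n - 1) + 1) :: UL a n

/-- The upper bound of the window `j`. -/
def uT (a j : ℕ) : ℕ := (UL a (j + 1)).headD 0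

lemma UL_succ (a n : ℕ) : UL a (n + 1) = uT a n :: UL a n := by
  unfold uT
  conv_lhs => rw [UL]
  conv_rhs => rw [UL]
  simp only [List.headD_cons]

lemma sum_take_UL (a : ℕ) : ∀ n k : ℕ, k ≤ n →
    ((UL a n).take k).sum = ∑ j ∈ Ico (n - k) n, uT a j := by
  intro n
  induction n with
  | zero =>
    intro k hk
    have : k = 0 := by omega
    subst this
    simp
  | succ n ih =>
    intro k hk
    cases k with
    | zero => simp
    | succ k =>
      rw [UL_succ, List.take_succ_cons, List.sum_cons, ih k (by omega)]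
      have e : n + 1 - (k + 1) = n - k := by omega
      rw [e, Finset.sum_Ico_succ_top (by omega), add_comm]

lemma uT_eq (a n : ℕ) : uT a n = if n < a then SC + 1
      else if n < 2 * a then SC + 1 - lamL a (n - a) - SC / (2 * n + 1)
      else (∑ j ∈ Ico (n - a) n, uT a j) / (n - 1) + 1 := by
  have h : uT a n = if n < a then SC + 1
      else if n < 2 * a then SC + 1 - lamL a (n - a) - SC / (2 * n + 1)
      else ((UL a n).take a).sum / (n - 1) + 1 := by
    unfold uT
    rw [UL]
    simp only [List.headD_cons]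
  rw [h]
  split_ifs with h1 h2
  · rfl
  · rfl
  · rw [sum_take_UL a n a (by omega)]

section spec

variable {w : ℕ} {c C : ℝ}

/-- The increments of the explicit main function. -/
lemma JJ_incr {a j : ℕ} (ha : 1 ≤ a) (hj : a ≤ j) :
    JJ a ((j : ℝ) + 1) - JJ a j ≤ 1 - (Real.log j - Real.log a) - 1 / (2 * j + 1) := by
  have hjr : (0 : ℝ) < j := by
    have : 0 < j := by omega
    exact_mod_cast this
  have h1 := log_succ_ge (n := j) (by omega)
  unfold JJ
  have h2 : ((j : ℝ) + 1 / 2) * (2 / (2 * j + 1)) = 1 := by field_simp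
  have h3 : ((j : ℝ) + 1 / 2) * (2 / (2 * (j : ℝ) + 1)) ≤
      (j + 1 / 2) * (Real.log ((j : ℝ) + 1) - Real.log j) :=
    mul_le_mul_of_nonneg_left h1 (by positivity)
  have h4 : (1 : ℝ) / (2 * j + 1) = 1 / 2 * (2 / (2 * j + 1)) := by ring
  rw [h4]
  nlinarith

/-- Correctness of the table of upper bounds. -/
theorem uT_spec (hc0 : 0 < c) (hc1 : c ≤ 1) (hC : 0 < C)
    (h : ∀ N : ℕ, 1 ≤ N → |L0 w N - c * Real.log N| ≤ C) {a : ℕ} (ha : 1 ≤ a) (j : ℕ) :
    UpW w c a j ((uT a j : ℝ) / SC) := by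
  have hS := SC_pos
  induction j using Nat.strong_induction_on with
  | _ j ih =>
    rcases Nat.lt_or_ge j a with h1 | h1
    · refine upW_low hc0 h ?_
      rw [uT_eq, if_pos h1, lt_div_iff₀ hS]
      push_cast
      linarith
    · rcases Nat.lt_or_ge j (2 * a) with h2 | h2
      · refine upW_mid hc0 hc1 hC h ha h1 h2 ((JJ_incr ha h1).trans_lt ?_)
        rw [uT_eq, if_neg (by omega), if_pos h2, lt_div_iff₀ hS]
        have h3 := lamL_le ha (j - a)
        have e : ((j - a : ℕ) : ℝ) = (j : ℝ) - a := by push_cast [Nat.cast_sub h1]; ring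
        rw [e, add_sub_cancel, div_le_iff₀ hS] at h3
        have h4 := natDiv_le SC (2 * j + 1)
        have h5 : ((SC + 1 : ℕ) : ℝ) - (lamL a (j - a) : ℝ) - ((SC / (2 * j + 1) : ℕ) : ℝ) ≤
            ((SC + 1 - lamL a (j - a) - SC / (2 * j + 1) : ℕ) : ℝ) := by
          have h6 : (SC + 1 : ℕ) ≤ (SC + 1 - lamL a (j - a) - SC / (2 * j + 1)) +
              lamL a (j - a) + SC / (2 * j + 1) := by omega
          have h7 : ((SC + 1 : ℕ) : ℝ) ≤ ((SC + 1 - lamL a (j - a) - SC / (2 * j + 1) : ℕ) : ℝ) +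
              lamL a (j - a) + ((SC / (2 * j + 1) : ℕ) : ℝ) := by exact_mod_cast h6
          linarith
        refine lt_of_lt_of_le ?_ h5
        push_cast at h4 ⊢
        have h8 : 1 / (2 * (j : ℝ) + 1) * SC = SC / (2 * j + 1) := by ring
        have h9 : (1 - (Real.log j - Real.log a) - 1 / (2 * (j : ℝ) + 1)) * SC =
            SC - (Real.log j - Real.log a) * SC - SC / (2 * j + 1) := by rw [← h8]; ring
        rw [h9]
        linarith
      · refine upW_rec hc0 ha h1 (by omega) (fun i => (uT a i : ℝ) / SC)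
          (fun i hi => ih i (mem_Ico.mp hi).2) ?_
        rw [← Finset.sum_div, uT_eq a j, if_neg (by omega), if_neg (by omega)]
        have h3 := Nat.lt_div_mul_add (a := ∑ i ∈ Ico (j - a) j, uT a i) (b := j - 1) (by omega)
        have h4 : ((∑ i ∈ Ico (j - a) j, uT a i : ℕ) : ℝ) <
            (((∑ i ∈ Ico (j - a) j, uT a i) / (j - 1) : ℕ) : ℝ) * ((j - 1 : ℕ) : ℝ) +
              ((j - 1 : ℕ) : ℝ) := by exact_mod_cast h3
        have e : ((j - 1 : ℕ) : ℝ) = (j : ℝ) - 1 := by
          rw [Nat.cast_sub (by omega)]; norm_num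
        rw [e] at h4
        rw [div_mul_eq_mul_div, div_lt_div_iff_of_pos_right hS]
        push_cast at h4 ⊢
        linarith

/-- The table of lower bounds beyond `z^2`: the pair `(lam, l)` after `k` steps. -/
def lowT (a : ℕ) : ℕ → ℕ × ℕ
  | 0 => (2 * SC / (2 * a + 1), a * (3 * SC - 2 * 693147180800) - 1)
  | k + 1 =>
    let p := lowT a k
    let J := (2 * (a + 1 + k) - a) * SC - (a + 1 + k) * p.1 + 1
    (p.1 + 2 * SC / (2 * (a + 1 + k) + 1),
      if J ≤ p.2 then p.2 + (p.2 - J) / (2 * a + k + 1) - 1 else 0)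

lemma lowT_fst (a k : ℕ) : (lowT a k).1 = lamL a (k + 1) := by
  induction k with
  | zero => simp [lowT, lamL]
  | succ k ih =>
    rw [lowT]
    simp only
    rw [ih]
    conv_rhs => rw [lamL]
    congr 3
    ring

lemma loL_nonpos {a e : ℕ} {l : ℝ} (hc0 : 0 < c) (hl : l ≤ 0) : LoL w c a e l := by
  filter_upwards [ev_log_ge 0] with Y hY
  have h1 : 0 ≤ LL w (Y ^ a) (Y ^ e) := Finset.sum_nonneg fun _ _ => by positivity
  have : l * (c * Real.log Y) ≤ 0 := mul_nonpos_of_nonpos_of_nonneg hl (by positivity)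
  linarith

/-- Correctness of the table of lower bounds. -/
theorem lowT_spec (hc0 : 0 < c) (hc1 : c ≤ 1) (hC : 0 < C)
    (h : ∀ N : ℕ, 1 ≤ N → |L0 w N - c * Real.log N| ≤ C) {a : ℕ} (ha : 2 ≤ a) (k : ℕ)
    (hk : k ≤ a) : LoL w c a (2 * a + k) (((lowT a k).2 : ℝ) / SC) := by
  have hS := SC_pos
  have har : (2 : ℝ) ≤ a := by exact_mod_cast ha
  induction k with
  | zero =>
    refine loL_mid hc0 hc1 hC h (by omega) (by omega) (by omega) ?_
    have e1 : JJ (a : ℝ) ((2 * a + 0 : ℕ) : ℝ) = a * (3 - 2 * Real.log 2) := by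
      unfold JJ
      push_cast
      rw [add_zero, Real.log_mul (by norm_num) (by linarith)]
      ring
    rw [e1, div_lt_iff₀ hS]
    have h2 := Real.log_two_lt_d9
    have h3 : ((lowT a 0).2 : ℝ) = (a : ℝ) * 1613705638400 - 1 := by
      have e2 : (lowT a 0).2 = a * 1613705638400 - 1 := by
        simp only [lowT, SC]
      have e3 : 1 ≤ a * 1613705638400 := by omega
      rw [e2]
      push_cast [Nat.cast_sub e3]
      ring
    rw [h3]
    have h4 : (SC : ℝ) = 1000000000000 := by unfold SC; norm_num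
    rw [h4]
    nlinarith
  | succ k ih =>
    have ih := ih (by omega)
    have e0 : 2 * a + (k + 1) = (2 * a + k) + 1 := by ring
    rw [e0]
    set p := lowT a k with hp
    set x := a + 1 + k with hx
    set J := (2 * x - a) * SC - x * p.1 + 1 with hJ
    have e1 : (lowT a (k + 1)).2 = if J ≤ p.2 then p.2 + (p.2 - J) / (2 * a + k + 1) - 1 else 0 := by
      rw [lowT]
    rw [e1]
    split_ifs with h1
    · -- the upper bound
      have hxr : (0 : ℝ) < x := by
        have : 0 < x := by omega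
        exact_mod_cast this
      have hUp : UpL w c a ((2 * a + k) + 1 - a) ((J : ℝ) / SC) := by
        have e2 : (2 * a + k) + 1 - a = x := by omega
        rw [e2]
        refine upL_mid hc0 hc1 hC h (by omega) (by omega) (by omega) ?_
        have h3 := lamL_le (a := a) (by omega) (k + 1)
        rw [← lowT_fst, ← hp] at h3
        have e3 : (a : ℝ) + ((k + 1 : ℕ) : ℝ) = x := by rw [hx]; push_cast; ring
        rw [e3, div_le_iff₀ hS] at h3
        rw [lt_div_iff₀ hS]
        unfold JJ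
        have h4 : ((2 * x - a : ℕ) : ℝ) * SC - x * p.1 + 1 ≤ J := by
          have h5 : (2 * x - a) * SC + 1 ≤ J + x * p.1 := by omega
          have h6 : (((2 * x - a : ℕ) : ℝ)) * SC + 1 ≤ J + x * p.1 := by exact_mod_cast h5
          linarith
        have e4 : ((2 * x - a : ℕ) : ℝ) = 2 * x - a := by
          rw [Nat.cast_sub (by omega)]; push_cast; ring
        rw [e4] at h4
        have h7 : (x : ℝ) * p.1 ≤ x * ((Real.log x - Real.log a) * SC) :=
          mul_le_mul_of_nonneg_left h3 hxr.le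
        linarith
      refine loL_rec hc0 hC h ha (by omega) ih hUp ?_
      have h2 : (((p.2 - J) / (2 * a + k + 1) : ℕ) : ℝ) ≤ ((p.2 : ℝ) - J) / (((2 * a + k : ℕ) : ℝ) + 1) := by
        have := natDiv_le (p.2 - J) (2 * a + k + 1)
        rw [Nat.cast_sub h1] at this
        push_cast at this ⊢
        exact this
      have h3 : ((p.2 + (p.2 - J) / (2 * a + k + 1) - 1 : ℕ) : ℝ) ≤
          p.2 + (((p.2 - J) / (2 * a + k + 1) : ℕ) : ℝ) - 1 := by
        have hJ1 : 1 ≤ J := by rw [hJ]; omega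
        have : 1 ≤ p.2 + (p.2 - J) / (2 * a + k + 1) := (hJ1.trans h1).trans (Nat.le_add_right _ _)
        rw [Nat.cast_sub this]
        push_cast
        linarith
      have h4 : (p.2 : ℝ) / SC + ((p.2 : ℝ) / SC - (J : ℝ) / SC) / (((2 * a + k : ℕ) : ℝ) + 1) =
          ((p.2 : ℝ) + ((p.2 : ℝ) - J) / (((2 * a + k : ℕ) : ℝ) + 1)) / SC := by
        field_simp
      rw [h4, div_lt_div_iff_of_pos_right hS]
      linarith
    · refine loL_nonpos hc0 ?_
      simp

/-- The lower bound on the grid. -/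
def Jm (a e : ℕ) : ℕ :=
  if e ≤ a then e * SC - 1
  else if e ≤ 2 * a then (2 * e - a) * SC - e * muU a (e - a) - 1
  else (lowT a (min (e - 2 * a) a)).2

lemma Jm_spec (hc0 : 0 < c) (hc1 : c ≤ 1) (hC : 0 < C)
    (h : ∀ N : ℕ, 1 ≤ N → |L0 w N - c * Real.log N| ≤ C) {a : ℕ} (ha : 2 ≤ a) (e : ℕ) :
    LoL w c a e ((Jm a e : ℝ) / SC) := by
  have hS := SC_pos
  unfold Jm
  split_ifs with h1 h2
  · rcases Nat.eq_zero_or_pos e with he | he
    · subst he
      refine loL_nonpos hc0 ?_
      simp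
    · refine loL_low hc0 h h1 ?_
      have h3 : 1 ≤ e * SC := by
        have : 1 ≤ SC := by unfold SC; norm_num
        exact Nat.mul_pos he this
      rw [div_lt_iff₀ hS, Nat.cast_sub h3]
      push_cast
      linarith
  · rcases Nat.lt_or_ge (e * muU a (e - a) + 1) ((2 * e - a) * SC + 1) with h3 | h3
    · refine loL_mid hc0 hc1 hC h (by omega) (by omega) h2 ?_
      rw [div_lt_iff₀ hS]
      have h4 := le_muU (a := a) (by omega) (e - a)
      have e1 : ((e - a : ℕ) : ℝ) = (e : ℝ) - a := by rw [Nat.cast_sub (by omega)]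
      rw [e1, add_sub_cancel, le_div_iff₀ hS] at h4
      have her : (0 : ℝ) ≤ e := Nat.cast_nonneg _
      have h5 := mul_le_mul_of_nonneg_left h4 her
      have e2 : ((2 * e - a : ℕ) : ℝ) = 2 * e - a := by
        rw [Nat.cast_sub (by omega)]; push_cast; ring
      have h6 : (((2 * e - a) * SC - e * muU a (e - a) - 1 : ℕ) : ℝ) ≤
          (2 * (e : ℝ) - a) * SC - e * muU a (e - a) - 1 := by
        have h7 : (2 * e - a) * SC - e * muU a (e - a) - 1 + (e * muU a (e - a) + 1) =
            (2 * e - a) * SC := by omega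
        have h8 : (((2 * e - a) * SC - e * muU a (e - a) - 1 : ℕ) : ℝ) +
            ((e : ℝ) * muU a (e - a) + 1) = ((2 * e - a : ℕ) : ℝ) * SC := by exact_mod_cast h7
        rw [e2] at h8
        linarith
      refine lt_of_le_of_lt h6 ?_
      unfold JJ
      linarith
    · refine loL_nonpos hc0 ?_
      have : (2 * e - a) * SC - e * muU a (e - a) - 1 = 0 := by omega
      rw [this]
      simp
  · have h3 := lowT_spec hc0 hc1 hC h ha (min (e - 2 * a) a) (min_le_right _ _)
    refine h3.mono ?_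
    have := min_le_left (e - 2 * a) a
    omega

end spec

end Pool.Agent.Sv
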