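import Pool.Agent.PalSieve.SieveIneq
import Pool.Agent.PalSieve.Asym

/-!
# Window inequalities for the sums over integers composed of the sieving primes
-/

namespace Pool.Agent.Sv

open Finset

/-- Primes with `N' ≤ q m < N`. -/
lemma sum_log_window_le {N N' m : ℕ} (hm : 1 ≤ m) (hmN : m < N) (hN' : 1 ≤ N') (hNN : N' ≤ N)
    (S : Finset ℕ) (hS : ∀ q ∈ S, q.Prime ∧ N' ≤ q * m ∧ q * m < N) :
    ∑ q ∈ S, Real.log q / q ≤ Real.log ((N : ℝ) / N') + 9 := by
  have hmr : (0 : ℝ) < m := by exact_mod_cast hm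
  have hNr : (0 : ℝ) < N := by
    have : 0 < N := by omega
    exact_mod_cast this
  have hN'r : (0 : ℝ) < N' := by exact_mod_cast hN'
  set n1 := (N' - 1) / m + 1 with hn1
  set n2 := (N - 1) / m + 1 with hn2
  have h12 : n1 ≤ n2 := by
    rw [hn1, hn2]
    exact Nat.succ_le_succ (Nat.div_le_div_right (by omega))
  have hsub : S ⊆ (Ico n1 n2).filter Nat.Prime := by
    intro q hq
    obtain ⟨h1, h2, h3⟩ := hS q hq
    rw [mem_filter, mem_Ico]
    refine ⟨⟨?_, ?_⟩, h1⟩
    · rw [hn1, Nat.succ_le_iff, Nat.div_lt_iff_lt_mul hm]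
      omega
    · rw [hn2, Nat.lt_succ_iff, Nat.le_div_iff_mul_le hm]
      omega
  have h1 : ∑ q ∈ S, Real.log q / q ≤ ∑ q ∈ (Ico n1 n2).filter Nat.Prime, Real.log q / q := by
    refine sum_le_sum_of_subset_of_nonneg hsub fun q hq _ => ?_
    rw [mem_filter] at hq
    have : 0 ≤ Real.log q := Real.log_nonneg (by exact_mod_cast hq.2.one_lt.le)
    positivity
  have h2 := (abs_le.mp (abs_sum_log_sub_le (n := n1) (m := n2) (Nat.le_add_left 1 _) h12)).2
  have h3 : Real.log n2 ≤ Real.log 2 + Real.log N - Real.log m := by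
    have e1 : (n2 : ℝ) ≤ 2 * N / m := by
      have e2 : (((N - 1) / m : ℕ) : ℝ) ≤ (N : ℝ) / m := by
        rw [le_div_iff₀ hmr]
        have h5 : (N - 1) / m * m ≤ N - 1 := Nat.div_mul_le_self _ _
        have h6 : (N - 1) / m * m ≤ N := by omega
        exact_mod_cast h6
      have e3 : (1 : ℝ) ≤ (N : ℝ) / m := by
        rw [le_div_iff₀ hmr, one_mul]
        exact_mod_cast hmN.le
      rw [hn2]
      push_cast at e2 ⊢
      have : 2 * (N : ℝ) / m = N / m + N / m := by ring
      linarith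
    have e4 : (0 : ℝ) < n2 := by
      have : 0 < n2 := Nat.succ_pos _
      exact_mod_cast this
    have := Real.log_le_log e4 e1
    rwa [Real.log_div (by positivity) hmr.ne', Real.log_mul (by norm_num) hNr.ne'] at this
  have h4 : Real.log N' - Real.log m ≤ Real.log n1 := by
    rw [← Real.log_div hN'r.ne' hmr.ne']
    refine Real.log_le_log (by positivity) ?_
    rw [div_le_iff₀ hmr]
    have h5 := Nat.lt_div_mul_add (a := N' - 1) hm
    have h6 : n1 * m = (N' - 1) / m * m + m := by rw [hn1]; ring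
    have h7 : N' ≤ n1 * m := by omega
    exact_mod_cast h7
  rw [Real.log_div hNr.ne' hN'r.ne']
  have := Real.log_two_lt_d9
  linarith

/-- Window inequality for squarefree integers (upper bound). -/
lemma GG_window {w z N N' M : ℕ} (hz : 1 ≤ z) (hM : M * z ≤ N') (hN' : 1 ≤ N') (hNN : N' ≤ N) :
    Real.log N' * (GG (PP w z) N - GG (PP w z) N') ≤
      (Real.log ((N : ℝ) / N') + 9) * (GG (PP w z) N - GG (PP w z) M) := by
  classical
  set P := PP w z with hP
  have hPpos : ∀ p ∈ P, 0 < p := fun p hp => PP_pos hp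
  have hMN : M ≤ N := by
    have : M ≤ M * z := Nat.le_mul_of_pos_right _ hz
    omega
  have hdiff : ∀ K, K ≤ N → GG P N - GG P K =
      ∑ T ∈ (DD P N).filter (fun T => K ≤ pr T), (1 : ℝ) / pr T := by
    intro K hK
    rw [sub_eq_iff_eq_add, add_comm]
    unfold GG
    rw [← Finset.sum_filter_add_sum_filter_not (DD P N) (fun T => K ≤ pr T), add_comm]
    congr 1
    refine Finset.sum_congr ?_ fun _ _ => rfl
    ext T
    rw [mem_filter, mem_DD, mem_DD]
    constructor
    · rintro ⟨⟨h1, h2⟩, h3⟩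
      exact ⟨h1, by omega⟩
    · rintro ⟨h1, h2⟩
      exact ⟨⟨h1, by omega⟩, by omega⟩
  rw [hdiff N' hNN, hdiff M hMN]
  set S := (DD P N).filter (fun T => N' ≤ pr T) with hS
  set Q := (DD P N).filter (fun T => M ≤ pr T) with hQ
  -- expand the logarithm
  have h1 : Real.log N' * ∑ T ∈ S, (1 : ℝ) / pr T ≤
      ∑ T ∈ S, ∑ q ∈ T, Real.log q / q * (1 / pr (T.erase q)) := by
    rw [Finset.mul_sum]
    refine Finset.sum_le_sum fun T hT => ?_
    rw [hS, mem_filter, mem_DD] at hT
    have hT0 : (0 : ℝ) < pr T := by exact_mod_cast pr_pos fun p hp => hPpos p (hT.1.1 hp)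
    have e1 : Real.log N' ≤ ∑ q ∈ T, Real.log q := by
      have e2 : Real.log N' ≤ Real.log (pr T) :=
        Real.log_le_log (by exact_mod_cast hN') (by exact_mod_cast hT.2)
      refine e2.trans (le_of_eq ?_)
      unfold pr
      push_cast
      rw [Real.log_prod]
      intro q hq
      have : 0 < q := hPpos q (hT.1.1 hq)
      positivity
    have e3 : ∀ q ∈ T, Real.log q / q * (1 / (pr (T.erase q) : ℝ)) = Real.log q * (1 / pr T) := by
      intro q hq
      have e4 : pr T = q * pr (T.erase q) := by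
        rw [← pr_insert (notMem_erase q T), insert_erase hq]
      rw [e4]
      push_cast
      rw [div_mul_div_comm, mul_one, mul_one_div]
    rw [Finset.sum_congr rfl e3, ← Finset.sum_mul]
    exact mul_le_mul_of_nonneg_right e1 (by positivity)
  refine h1.trans ?_
  -- change the order
  have h2 : ∑ T ∈ S, ∑ q ∈ T, Real.log q / q * (1 / (pr (T.erase q) : ℝ)) ≤
      ∑ U ∈ Q, ∑ q ∈ P.filter (fun q => N' ≤ q * pr U ∧ q * pr U < N),
        Real.log q / q * (1 / pr U) := by
    rw [Finset.sum_sigma', Finset.sum_sigma']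
    have hlog : ∀ q ∈ P, 0 ≤ Real.log q := fun q hq =>
      Real.log_nonneg (by exact_mod_cast hPpos q hq)
    set f : (Σ _ : Finset ℕ, ℕ) → (Σ _ : Finset ℕ, ℕ) := fun x => ⟨x.1.erase x.2, x.2⟩ with hf
    have hinj : Set.InjOn f (S.sigma (fun T => T) : Set (Σ _ : Finset ℕ, ℕ)) := by
      rintro ⟨T, q⟩ hx ⟨T', q'⟩ hx' h
      rw [mem_coe, mem_sigma] at hx hx'
      simp only [hf, Sigma.mk.injEq, heq_eq_eq] at h
      obtain ⟨h3, h4⟩ := h
      subst h4
      simp only at hx hx'
      have : T = T' := by rw [← insert_erase hx.2, ← insert_erase hx'.2, h3]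
      rw [this]
    have h3 : ∑ x ∈ S.sigma (fun T => T), Real.log x.2 / x.2 * (1 / (pr (x.1.erase x.2) : ℝ)) =
        ∑ y ∈ (S.sigma (fun T => T)).image f, Real.log y.2 / y.2 * (1 / (pr y.1 : ℝ)) := by
      rw [sum_image hinj]
    rw [h3]
    refine sum_le_sum_of_subset_of_nonneg ?_ fun y hy _ => ?_
    · intro y hy
      obtain ⟨⟨T, q⟩, hx, rfl⟩ := mem_image.mp hy
      rw [mem_sigma] at hx
      simp only [hS, mem_filter, mem_DD] at hx
      obtain ⟨⟨⟨x1, x2⟩, x3⟩, x4⟩ := hx
      have e4 : pr T = q * pr (T.erase q) := by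
        rw [← pr_insert (notMem_erase q T), insert_erase x4]
      have hqz : q < z := (mem_PP.mp (x1 x4)).2.1
      have hpos : 0 < pr (T.erase q) := pr_pos fun p hp => hPpos p (x1 (erase_subset _ _ hp))
      rw [mem_sigma]
      simp only [hf, hQ, mem_filter, mem_DD]
      refine ⟨⟨⟨(erase_subset _ _).trans x1, ?_⟩, ?_⟩, x1 x4, ?_, ?_⟩
      · have : pr (T.erase q) ≤ pr T := pr_le_of_subset hPpos x1 (erase_subset _ _)
        omega
      · by_contra hcon
        push Not at hcon
        have h5 : q * pr (T.erase q) < z * M := Nat.mul_lt_mul'' hqz hcon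
        rw [mul_comm z M] at h5
        omega
      · omega
      · omega
    · have hy2 := (mem_sigma.mp hy).2
      have := hlog _ (mem_filter.mp hy2).1
      positivity
  refine h2.trans ?_
  rw [Finset.mul_sum]
  refine Finset.sum_le_sum fun U hU => ?_
  rw [hQ, mem_filter, mem_DD] at hU
  have hpos : 0 < pr U := pr_pos fun p hp => hPpos p (hU.1.1 hp)
  have hposr : (0 : ℝ) < pr U := by exact_mod_cast hpos
  rw [← Finset.sum_mul]
  refine mul_le_mul_of_nonneg_right ?_ (by positivity)
  refine sum_log_window_le hpos hU.1.2 hN' hNN _ ?_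
  intro q hq
  rw [mem_filter] at hq
  exact ⟨(mem_PP.mp hq.1).2.2, hq.2.1, hq.2.2⟩

/-- Window inequality (lower bound). -/
lemma LL_window {w z N N' N'' M : ℕ} (h1 : N ≤ M * z) (h2 : N'' * (w + 1) ≤ N') (hM : 1 ≤ M)
    (hMN : M ≤ N'') (hNN : N' ≤ N) :
    (Real.log ((N : ℝ) / N') - 9) * (LL w z N'' - LL w z M) ≤
      Real.log N * (LL w z N - LL w z N') := by
  classical
  have hN''N' : N'' ≤ N' := by
    have : N'' ≤ N'' * (w + 1) := Nat.le_mul_of_pos_right _ (by omega)
    omega
  have hN'1 : 1 ≤ N' := by omega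
  have hN'r : (0 : ℝ) < N' := by exact_mod_cast hN'1
  have hNr : (0 : ℝ) < N := by
    have : 0 < N := by omega
    exact_mod_cast this
  have hdiff : ∀ K L : ℕ, 1 ≤ K → K ≤ L → LL w z L - LL w z K =
      ∑ n ∈ (Ico K L).filter (fun n => ∀ p ∈ n.primeFactors, w < p ∧ p < z), (1 : ℝ) / n := by
    intro K L hK hKL
    unfold LL
    rw [sub_eq_iff_eq_add, add_comm, ← sum_union]
    · refine Finset.sum_congr ?_ fun _ _ => rfl
      rw [← filter_union]
      congr 1
      rw [Ico_union_Ico_eq_Ico hK hKL]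
    · rw [disjoint_left]
      intro k h1 h2
      simp only [mem_filter, mem_Ico] at h1 h2
      omega
  rw [hdiff M N'' hM hMN, hdiff N' N hN'1 hNN]
  set A := (Ico M N'').filter (fun n => ∀ p ∈ n.primeFactors, w < p ∧ p < z) with hA
  set S := (Ico N' N).filter (fun n => ∀ p ∈ n.primeFactors, w < p ∧ p < z) with hS
  -- lower bound by the pairs
  have h3 : ∑ n ∈ S, ∑ q ∈ n.primeFactors, Real.log q * (1 / n) ≤
      Real.log N * ∑ n ∈ S, (1 : ℝ) / n := by
    rw [Finset.mul_sum]
    refine Finset.sum_le_sum fun n hn => ?_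
    rw [hS, mem_filter, mem_Ico] at hn
    have hn0 : 0 < n := by omega
    have hnr : (0 : ℝ) < n := by exact_mod_cast hn0
    rw [← Finset.sum_mul]
    refine mul_le_mul_of_nonneg_right ?_ (by positivity)
    have e1 : ∑ q ∈ n.primeFactors, Real.log q = Real.log ((∏ q ∈ n.primeFactors, q : ℕ) : ℝ) := by
      push_cast
      rw [Real.log_prod]
      intro q hq
      have : 0 < q := (Nat.prime_of_mem_primeFactors hq).pos
      positivity
    rw [e1]
    refine Real.log_le_log ?_ ?_
    · have : 0 < ∏ q ∈ n.primeFactors, q :=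
        Finset.prod_pos fun q hq => (Nat.prime_of_mem_primeFactors hq).pos
      exact_mod_cast this
    · have : ∏ q ∈ n.primeFactors, q ≤ n := Nat.le_of_dvd hn0 (Nat.prod_primeFactors_dvd n)
      have h5 : ∏ q ∈ n.primeFactors, q ≤ N := by omega
      exact_mod_cast h5
  refine le_trans ?_ h3
  set Qm : ℕ → Finset ℕ := fun m => (Ico ((N' - 1) / m + 1) ((N - 1) / m + 1)).filter Nat.Prime
    with hQm
  have h4 : ∑ m ∈ A, ∑ q ∈ Qm m, Real.log q / q * (1 / (m : ℝ)) ≤
      ∑ n ∈ S, ∑ q ∈ n.primeFactors, Real.log q * (1 / n) := by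
    rw [Finset.sum_sigma', Finset.sum_sigma']
    set f : (Σ _ : ℕ, ℕ) → (Σ _ : ℕ, ℕ) := fun x => ⟨x.1 * x.2, x.2⟩ with hf
    have hmem : ∀ x ∈ A.sigma Qm, 1 ≤ x.1 ∧ x.2.Prime ∧ N' ≤ x.1 * x.2 ∧ x.1 * x.2 < N ∧
        M ≤ x.1 ∧ x.1 < N'' ∧ (∀ p ∈ x.1.primeFactors, w < p ∧ p < z) := by
      intro x hx
      simp only [mem_sigma, hA, hQm, mem_filter, mem_Ico] at hx
      obtain ⟨⟨⟨x1, x2⟩, x3⟩, ⟨x4, x5⟩, x6⟩ := hx
      have hm : 0 < x.1 := by omega
      refine ⟨hm, x6, ?_, ?_, x1, x2, x3⟩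
      · have : (N' - 1) / x.1 < x.2 := by omega
        rw [Nat.div_lt_iff_lt_mul hm] at this
        rw [mul_comm]
        omega
      · have : x.2 ≤ (N - 1) / x.1 := by omega
        rw [Nat.le_div_iff_mul_le hm] at this
        rw [mul_comm]
        omega
    have hinj : Set.InjOn f (A.sigma Qm : Set (Σ _ : ℕ, ℕ)) := by
      rintro ⟨m, q⟩ hx ⟨m', q'⟩ hx' h
      have k1 := hmem _ (mem_coe.mp hx)
      simp only [hf, Sigma.mk.injEq, heq_eq_eq] at h
      obtain ⟨h3, h4⟩ := h
      subst h4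
      have : m = m' := Nat.eq_of_mul_eq_mul_right k1.2.1.pos h3
      rw [this]
    have e1 : ∑ x ∈ A.sigma Qm, Real.log x.2 / x.2 * (1 / (x.1 : ℝ)) =
        ∑ y ∈ (A.sigma Qm).image f, Real.log y.2 * (1 / (y.1 : ℝ)) := by
      rw [sum_image hinj]
      refine Finset.sum_congr rfl fun x hx => ?_
      have k1 := hmem _ hx
      have hq : (0 : ℝ) < x.2 := by exact_mod_cast k1.2.1.pos
      have hm : (0 : ℝ) < x.1 := by exact_mod_cast k1.1
      simp only [hf]
      push_cast
      field_simp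
    rw [e1]
    refine sum_le_sum_of_subset_of_nonneg ?_ fun y hy _ => ?_
    · intro y hy
      obtain ⟨x, hx, rfl⟩ := mem_image.mp hy
      obtain ⟨k1, k2, k3, k4, k5, k6, k7⟩ := hmem x hx
      rw [mem_sigma]
      simp only [hf, hS, mem_filter, mem_Ico]
      refine ⟨⟨⟨k3, k4⟩, ?_⟩, ?_⟩
      · intro p hp
        rw [Nat.primeFactors_mul (by omega) k2.ne_zero, mem_union, k2.primeFactors,
          mem_singleton] at hp
        rcases hp with h | h
        · exact k7 p h
        · rw [h]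
          constructor
          · by_contra hcon
            push Not at hcon
            have : x.1 * x.2 < N'' * (w + 1) := Nat.mul_lt_mul'' k6 (by omega)
            omega
          · by_contra hcon
            push Not at hcon
            have : M * z ≤ x.1 * x.2 := Nat.mul_le_mul k5 hcon
            omega
      · rw [Nat.mem_primeFactors]
        refine ⟨k2, Dvd.intro_left _ rfl, ?_⟩
        have := Nat.mul_pos k1 k2.pos
        omega
    · rw [mem_sigma] at hy
      have : 0 ≤ Real.log y.2 := Real.log_nonneg (by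
        exact_mod_cast (Nat.prime_of_mem_primeFactors hy.2).one_lt.le)
      positivity
  refine le_trans ?_ h4
  rw [Finset.mul_sum]
  refine Finset.sum_le_sum fun m hm => ?_
  rw [hA, mem_filter, mem_Ico] at hm
  have hm0 : 0 < m := by omega
  have hmr : (0 : ℝ) < m := by exact_mod_cast hm0
  rw [← Finset.sum_mul]
  refine mul_le_mul_of_nonneg_right ?_ (by positivity)
  simp only [hQm]
  set n1 := (N' - 1) / m + 1 with hn1
  set n2 := (N - 1) / m + 1 with hn2
  have h12 : n1 ≤ n2 := by
    rw [hn1, hn2]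
    exact Nat.succ_le_succ (Nat.div_le_div_right (by omega))
  have h5 := (abs_le.mp (abs_sum_log_sub_le (n := n1) (m := n2) (Nat.le_add_left 1 _) h12)).1
  have h6 : Real.log N - Real.log m ≤ Real.log n2 := by
    rw [← Real.log_div hNr.ne' hmr.ne']
    refine Real.log_le_log (by positivity) ?_
    rw [div_le_iff₀ hmr]
    have h5 := Nat.lt_div_mul_add (a := N - 1) hm0
    have h6 : n2 * m = (N - 1) / m * m + m := by rw [hn2]; ring
    have h7 : N ≤ n2 * m := by omega
    exact_mod_cast h7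
  have h7 : Real.log n1 ≤ Real.log 2 + Real.log N' - Real.log m := by
    have e1 : (n1 : ℝ) ≤ 2 * N' / m := by
      have e2 : (((N' - 1) / m : ℕ) : ℝ) ≤ (N' : ℝ) / m := by
        rw [le_div_iff₀ hmr]
        have h5 : (N' - 1) / m * m ≤ N' - 1 := Nat.div_mul_le_self _ _
        have h6 : (N' - 1) / m * m ≤ N' := by omega
        exact_mod_cast h6
      have e3 : (1 : ℝ) ≤ (N' : ℝ) / m := by
        rw [le_div_iff₀ hmr, one_mul]
        have : m ≤ N' := by omega
        exact_mod_cast this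
      rw [hn1]
      push_cast at e2 ⊢
      have : 2 * (N' : ℝ) / m = N' / m + N' / m := by ring
      linarith
    have e4 : (0 : ℝ) < n1 := by
      have : 0 < n1 := Nat.succ_pos _
      exact_mod_cast this
    have := Real.log_le_log e4 e1
    rwa [Real.log_div (by positivity) hmr.ne', Real.log_mul (by norm_num) hN'r.ne'] at this
  rw [Real.log_div hNr.ne' hN'r.ne']
  have := Real.log_two_lt_d9
  linarith

end Pool.Agent.Sv
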